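import Mathlib

set_option autoImplicit false

/-!
# Chebyshev's classical bounds (the 30-trick)

We prove, for the Chebyshev function `psi` of Mathlib,
`0.9212 * x - (small) ≤ psi x` and `psi x ≤ 1.1056 * x + K`.
-/

namespace Pool.Agent.Helper45.Cheb

open Finset Real Nat ArithmeticFunction


/-- `log (N!)` as a sum over `Λ`. -/
theorem log_factorial_eq (N : ℕ) :
    Real.log (N ! : ℝ) = ∑ d ∈ Ioc 0 N, Λ d * ((N / d : ℕ) : ℝ) := by
  have h1 : Real.log (N ! : ℝ) = ∑ n ∈ Ioc 0 N, Real.log n := by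
    induction N with
    | zero => simp
    | succ n ih =>
      rw [Nat.factorial_succ, Nat.cast_mul, Real.log_mul (by positivity) (by positivity), ih,
        Finset.sum_Ioc_succ_top (by omega)]
      ring
  rw [h1]
  have h2 := sum_Ioc_mul_zeta_eq_sum (R := ℝ) Λ N
  rw [← h2]
  refine Finset.sum_congr rfl fun n hn => ?_
  rw [ArithmeticFunction.vonMangoldt_mul_zeta]
  rfl

/-- extension of the sum to a larger range -/
theorem log_factorial_eq' (N M k : ℕ) (hM : M = N / k) :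
    Real.log (M ! : ℝ) = ∑ d ∈ Ioc 0 N, Λ d * ((N / d / k : ℕ) : ℝ) := by
  rw [log_factorial_eq, hM]
  have hle : N / k ≤ N := Nat.div_le_self _ _
  have hsub : Ioc 0 (N / k) ⊆ Ioc 0 N := Finset.Ioc_subset_Ioc_right hle
  rw [← Finset.sum_subset hsub]
  · refine Finset.sum_congr rfl fun d hd => ?_
    rw [Nat.div_div_eq_div_mul, Nat.div_div_eq_div_mul, Nat.mul_comm]
  · intro d hd hnd
    simp only [mem_Ioc, not_and, not_le] at hd hnd
    have : N / d / k = 0 := by
      rw [Nat.div_div_eq_div_mul, Nat.mul_comm, ← Nat.div_div_eq_div_mul]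
      exact Nat.div_eq_of_lt (hnd hd.1)
    rw [this]; simp

/-- The Chebyshev combination. -/
theorem comb_bounds (m : ℕ) :
    m + m / 30 ≤ 1 + m / 2 + m / 3 + m / 5 ∧ m / 2 + m / 3 + m / 5 ≤ m + m / 30 := by
  omega

theorem comb_eq_one (m : ℕ) (h1 : 1 ≤ m) (h2 : m < 6) :
    m + m / 30 = 1 + m / 2 + m / 3 + m / 5 := by
  interval_cases m <;> norm_num

noncomputable def D (N : ℕ) : ℝ :=
  Real.log (N ! : ℝ) - Real.log ((N / 2)! : ℝ) - Real.log ((N / 3)! : ℝ)
    - Real.log ((N / 5)! : ℝ) + Real.log ((N / 30)! : ℝ)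

theorem D_eq (N : ℕ) : D N = ∑ d ∈ Ioc 0 N, Λ d *
    (((N / d : ℕ) : ℝ) - ((N / d / 2 : ℕ) : ℝ) - ((N / d / 3 : ℕ) : ℝ) - ((N / d / 5 : ℕ) : ℝ)
      + ((N / d / 30 : ℕ) : ℝ)) := by
  unfold D
  rw [log_factorial_eq N, log_factorial_eq' N (N / 2) 2 rfl,
    log_factorial_eq' N (N / 3) 3 rfl,
    log_factorial_eq' N (N / 5) 5 rfl,
    log_factorial_eq' N (N / 30) 30 rfl]
  rw [← Finset.sum_sub_distrib, ← Finset.sum_sub_distrib, ← Finset.sum_sub_distrib,
    ← Finset.sum_add_distrib]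
  refine Finset.sum_congr rfl fun d _ => ?_
  ring

theorem psi_nat (N : ℕ) : Chebyshev.psi N = ∑ n ∈ Ioc 0 N, Λ n := by
  simp [Chebyshev.psi]

theorem D_le_psi (N : ℕ) : D N ≤ Chebyshev.psi N := by
  rw [D_eq, psi_nat]
  refine Finset.sum_le_sum fun d _ => ?_
  have h := (comb_bounds (N / d)).1
  have h' : ((N / d : ℕ) : ℝ) + ((N / d / 30 : ℕ) : ℝ) ≤
      1 + ((N / d / 2 : ℕ) : ℝ) + ((N / d / 3 : ℕ) : ℝ) + ((N / d / 5 : ℕ) : ℝ) := by
    exact_mod_cast h
  have h0 : 0 ≤ Λ d := vonMangoldt_nonneg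
  nlinarith

theorem psi_sub_le_D (N : ℕ) : Chebyshev.psi N - Chebyshev.psi (N / 6 : ℕ) ≤ D N := by
  rw [D_eq, psi_nat, psi_nat]
  have hle : N / 6 ≤ N := Nat.div_le_self _ _
  have hsub : Ioc 0 (N / 6) ⊆ Ioc 0 N := Finset.Ioc_subset_Ioc_right hle
  rw [← Finset.sum_sdiff hsub, add_sub_cancel_right, ← Finset.sum_sdiff hsub]
  have hA : ∀ d ∈ Ioc 0 N \ Ioc 0 (N / 6), Λ d ≤ Λ d *
    (((N / d : ℕ) : ℝ) - ((N / d / 2 : ℕ) : ℝ) - ((N / d / 3 : ℕ) : ℝ) - ((N / d / 5 : ℕ) : ℝ)
      + ((N / d / 30 : ℕ) : ℝ)) := by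
    intro d hd
    simp only [mem_sdiff, mem_Ioc, not_and, not_le] at hd
    obtain ⟨⟨h1, h2⟩, h3⟩ := hd
    have h3 := h3 h1
    have h4 : N / d < 6 := by
      rw [Nat.div_lt_iff_lt_mul h1]
      omega
    have h5 : 1 ≤ N / d := (Nat.one_le_div_iff h1).2 h2
    have h6 := comb_eq_one (N / d) h5 h4
    have h' : ((N / d : ℕ) : ℝ) + ((N / d / 30 : ℕ) : ℝ) =
      1 + ((N / d / 2 : ℕ) : ℝ) + ((N / d / 3 : ℕ) : ℝ) + ((N / d / 5 : ℕ) : ℝ) := by
      exact_mod_cast h6
    have h7 : (((N / d : ℕ) : ℝ) - ((N / d / 2 : ℕ) : ℝ) - ((N / d / 3 : ℕ) : ℝ)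
        - ((N / d / 5 : ℕ) : ℝ) + ((N / d / 30 : ℕ) : ℝ)) = 1 := by linarith
    rw [h7, mul_one]
  have hB : ∀ d ∈ Ioc 0 (N / 6), 0 ≤ Λ d *
    (((N / d : ℕ) : ℝ) - ((N / d / 2 : ℕ) : ℝ) - ((N / d / 3 : ℕ) : ℝ) - ((N / d / 5 : ℕ) : ℝ)
      + ((N / d / 30 : ℕ) : ℝ)) := by
    intro d _
    refine mul_nonneg vonMangoldt_nonneg ?_
    have h := (comb_bounds (N / d)).2
    have h' : ((N / d / 2 : ℕ) : ℝ) + ((N / d / 3 : ℕ) : ℝ) + ((N / d / 5 : ℕ) : ℝ)
        ≤ ((N / d : ℕ) : ℝ) + ((N / d / 30 : ℕ) : ℝ) := by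
      exact_mod_cast h
    linarith
  have h1 := Finset.sum_le_sum hA
  have h2 := Finset.sum_nonneg hB
  linarith


/-! ### Stirling-type bounds -/

noncomputable def F (x : ℝ) : ℝ := x * Real.log x - x

theorem F_nat_le (m : ℕ) (hm : 1 ≤ m) : F m ≤ Real.log (m ! : ℝ) := by
  have h := Stirling.le_log_factorial_stirling (n := m) (by omega)
  have h1 : 0 ≤ Real.log m := Real.log_nonneg (by exact_mod_cast hm)
  have h2 : 0 ≤ Real.log (2 * Real.pi) := Real.log_nonneg (by linarith [Real.pi_gt_three])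
  unfold F
  linarith

theorem log_fact_le_F_nat (m : ℕ) (hm : 1 ≤ m) :
    Real.log (m ! : ℝ) ≤ F m + Real.log m + 1 := by
  induction m, hm using Nat.le_induction with
  | base => simp [F]
  | succ m hm ih =>
    have hm0 : (0 : ℝ) < m := by exact_mod_cast hm
    rw [Nat.factorial_succ, Nat.cast_mul, Real.log_mul (by positivity) (by positivity)]
    unfold F at *
    have h1 : 1 - ((m : ℝ) / (m + 1)) ≤ Real.log (((m : ℝ) + 1) / m) := by
      have := Real.one_sub_inv_le_log_of_pos (x := ((m : ℝ) + 1) / m) (by positivity)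
      rwa [inv_div] at this
    rw [Real.log_div (by positivity) (by positivity)] at h1
    have h2 : (1 : ℝ) ≤ ((m : ℝ) + 1) * (Real.log ((m : ℝ) + 1) - Real.log m) := by
      have h3 : 1 - ((m : ℝ) / (m + 1)) = 1 / ((m : ℝ) + 1) := by field_simp; ring
      rw [h3, div_le_iff₀ (by positivity)] at h1
      linarith
    push_cast
    nlinarith

theorem F_floor_bounds (x : ℝ) (hx : 1 ≤ x) :
    F x - Real.log x ≤ Real.log ((⌊x⌋₊)! : ℝ) ∧
      Real.log ((⌊x⌋₊)! : ℝ) ≤ F x + Real.log x + 1 := by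
  set m := ⌊x⌋₊ with hm
  have hm1 : 1 ≤ m := by
    rw [hm]; exact (Nat.one_le_floor_iff x).2 hx
  have hm0 : (0 : ℝ) < m := by exact_mod_cast hm1
  have hmx : (m : ℝ) ≤ x := Nat.floor_le (by linarith)
  have hxm : x < m + 1 := Nat.lt_floor_add_one x
  have hx0 : 0 < x := by linarith
  have hlogm : 0 ≤ Real.log m := Real.log_nonneg (by exact_mod_cast hm1)
  have hlogx : 0 ≤ Real.log x := Real.log_nonneg hx
  have hlogmx : Real.log m ≤ Real.log x := Real.log_le_log hm0 hmx
  have h1 : Real.log (x / m) ≤ x / m - 1 := Real.log_le_sub_one_of_pos (by positivity)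
  have h2 : 1 - (m : ℝ) / x ≤ Real.log (x / m) := by
    have := Real.one_sub_inv_le_log_of_pos (x := x / m) (by positivity)
    rwa [inv_div] at this
  rw [Real.log_div (by positivity) (by positivity)] at h1 h2
  have h1' : (m : ℝ) * (Real.log x - Real.log m) ≤ x - m := by
    have : x / m - 1 = (x - m) / m := by field_simp
    rw [this, le_div_iff₀ hm0] at h1
    linarith
  have h2' : x - m ≤ x * (Real.log x - Real.log m) := by
    have : 1 - (m : ℝ) / x = (x - m) / x := by field_simp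
    rw [this, div_le_iff₀ hx0] at h2
    linarith
  have h3 := F_nat_le m hm1
  have h4 := log_fact_le_F_nat m hm1
  unfold F at *
  constructor
  · nlinarith
  · nlinarith

noncomputable def A : ℝ :=
  Real.log 2 / 2 + Real.log 3 / 3 + Real.log 5 / 5 - Real.log 30 / 30

theorem log_thirty : Real.log 30 = Real.log 2 + Real.log 3 + Real.log 5 := by
  rw [show (30 : ℝ) = 2 * 3 * 5 by norm_num, Real.log_mul (by norm_num) (by norm_num),
    Real.log_mul (by norm_num) (by norm_num)]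

theorem A_gt : 0.92129 < A := by
  unfold A; rw [log_thirty]
  have := Real.log_two_gt_d9
  have := Real.log_three_gt_d9
  have := Real.log_five_gt_d9
  linarith

theorem A_lt : A < 0.9213 := by
  unfold A; rw [log_thirty]
  have := Real.log_two_lt_d9
  have := Real.log_three_lt_d9
  have := Real.log_five_lt_d9
  linarith

theorem F_comb (x : ℝ) (hx : 0 < x) :
    F x - F (x / 2) - F (x / 3) - F (x / 5) + F (x / 30) = A * x := by
  unfold F A
  rw [Real.log_div hx.ne' (by norm_num), Real.log_div hx.ne' (by norm_num),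
    Real.log_div hx.ne' (by norm_num), Real.log_div hx.ne' (by norm_num)]
  ring

theorem floor_bounds_nat (N k : ℕ) (hk : 0 < k) (hN : k ≤ N) :
    F ((N : ℝ) / k) - Real.log N ≤ Real.log ((N / k)! : ℝ) ∧
      Real.log ((N / k)! : ℝ) ≤ F ((N : ℝ) / k) + Real.log N + 1 := by
  have hk' : (0 : ℝ) < k := by exact_mod_cast hk
  have hNk : (1 : ℝ) ≤ (N : ℝ) / k := by
    rw [le_div_iff₀ hk', one_mul]; exact_mod_cast hN
  have h := F_floor_bounds ((N : ℝ) / k) hNk
  rw [Nat.floor_div_eq_div] at h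
  have hN0 : (0 : ℝ) < N := by
    have : 0 < N := by omega
    exact_mod_cast this
  have hk1 : (1 : ℝ) ≤ k := by exact_mod_cast hk
  have hlog : Real.log ((N : ℝ) / k) ≤ Real.log N := by
    apply Real.log_le_log (by positivity)
    exact div_le_self hN0.le hk1
  constructor
  · linarith [h.1]
  · linarith [h.2]

theorem D_lower (N : ℕ) (hN : 30 ≤ N) : A * N - 5 * Real.log N - 3 ≤ D N := by
  have hN0 : (0 : ℝ) < N := by
    have : 0 < N := by omega
    exact_mod_cast this
  have h1 := floor_bounds_nat N 1 (by norm_num) (by omega)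
  have h2 := floor_bounds_nat N 2 (by norm_num) (by omega)
  have h3 := floor_bounds_nat N 3 (by norm_num) (by omega)
  have h5 := floor_bounds_nat N 5 (by norm_num) (by omega)
  have h30 := floor_bounds_nat N 30 (by norm_num) (by omega)
  have hF := F_comb (N : ℝ) hN0
  unfold D
  rw [Nat.div_one] at h1
  push_cast at h1 h2 h3 h5 h30
  rw [div_one] at h1
  linarith [h1.1, h2.2, h3.2, h5.2, h30.1]

theorem D_upper (N : ℕ) (hN : 30 ≤ N) : D N ≤ A * N + 5 * Real.log N + 2 := by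
  have hN0 : (0 : ℝ) < N := by
    have : 0 < N := by omega
    exact_mod_cast this
  have h1 := floor_bounds_nat N 1 (by norm_num) (by omega)
  have h2 := floor_bounds_nat N 2 (by norm_num) (by omega)
  have h3 := floor_bounds_nat N 3 (by norm_num) (by omega)
  have h5 := floor_bounds_nat N 5 (by norm_num) (by omega)
  have h30 := floor_bounds_nat N 30 (by norm_num) (by omega)
  have hF := F_comb (N : ℝ) hN0
  unfold D
  rw [Nat.div_one] at h1
  push_cast at h1 h2 h3 h5 h30
  rw [div_one] at h1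
  linarith [h1.2, h2.1, h3.1, h5.1, h30.2]

theorem psi_ge_nat (N : ℕ) (hN : 30 ≤ N) : A * N - 5 * Real.log N - 3 ≤ Chebyshev.psi N :=
  (D_lower N hN).trans (D_le_psi N)

theorem psi_sub_le_nat (N : ℕ) (hN : 30 ≤ N) :
    Chebyshev.psi N - Chebyshev.psi (N / 6 : ℕ) ≤ A * N + 5 * Real.log N + 2 :=
  (psi_sub_le_D N).trans (D_upper N hN)

open Filter in
/-- `ψ N ≤ 1.1056 N + K` for all `N`. -/
theorem psi_le_nat : ∃ K : ℝ, 0 ≤ K ∧ ∀ N : ℕ, Chebyshev.psi N ≤ 1.1056 * N + K := by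
  have hev : ∀ᶠ x : ℝ in atTop, 5 * Real.log x + 2 ≤ 0.00003 * x := by
    have h := Real.isLittleO_log_id_atTop.bound (c := 0.000001) (by norm_num)
    filter_upwards [h, eventually_ge_atTop (100000 : ℝ)] with x hx hx2
    simp only [Real.norm_eq_abs, id_eq] at hx
    rw [abs_of_nonneg (Real.log_nonneg (by linarith)), abs_of_nonneg (by linarith)] at hx
    linarith
  obtain ⟨X, hX⟩ := Filter.eventually_atTop.1 hev
  set N0 : ℕ := max 30 ⌈X⌉₊ with hN0
  refine ⟨Chebyshev.psi N0, Chebyshev.psi_nonneg _, ?_⟩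
  intro N
  induction N using Nat.strong_induction_on with
  | _ N ih =>
    by_cases hN : N < N0
    · have : Chebyshev.psi N ≤ Chebyshev.psi N0 := Chebyshev.psi_mono (by exact_mod_cast hN.le)
      have h0 : (0 : ℝ) ≤ 1.1056 * N := by positivity
      linarith
    · push Not at hN
      have h30 : 30 ≤ N := le_trans (le_max_left _ _) hN
      have hXN : X ≤ N := by
        have : ⌈X⌉₊ ≤ N := le_trans (le_max_right _ _) hN
        exact (Nat.le_ceil X).trans (by exact_mod_cast this)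
      have h1 := psi_sub_le_nat N h30
      have h2 := ih (N / 6) (Nat.div_lt_self (by omega) (by norm_num))
      have h3 := hX N hXN
      have h4 : ((N / 6 : ℕ) : ℝ) ≤ (N : ℝ) / 6 := Nat.cast_div_le
      have h5 := A_lt
      have h6 : (30 : ℝ) ≤ N := by exact_mod_cast h30
      nlinarith


/-! ### Eventual bounds for real arguments -/

open Filter

theorem eventually_psi_ge : ∀ᶠ x : ℝ in atTop, 0.9212 * x ≤ Chebyshev.psi x := by
  have h := Real.isLittleO_log_id_atTop.bound (c := 0.000001) (by norm_num)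
  filter_upwards [h, eventually_ge_atTop (10000000 : ℝ)] with x hx hx2
  simp only [Real.norm_eq_abs, id_eq] at hx
  rw [abs_of_nonneg (Real.log_nonneg (by linarith)), abs_of_nonneg (by linarith)] at hx
  rw [Chebyshev.psi_eq_psi_coe_floor]
  have hfl : x < ⌊x⌋₊ + 1 := Nat.lt_floor_add_one x
  have hfl2 : (⌊x⌋₊ : ℝ) ≤ x := Nat.floor_le (by linarith)
  have h30 : 30 ≤ ⌊x⌋₊ := Nat.le_floor (by norm_num; linarith)
  have h1 := psi_ge_nat ⌊x⌋₊ h30
  have h30' : (30 : ℝ) ≤ ⌊x⌋₊ := by exact_mod_cast h30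
  have h2 : Real.log ⌊x⌋₊ ≤ Real.log x := Real.log_le_log (by linarith) hfl2
  have h3 := A_gt
  nlinarith

theorem eventually_psi_le : ∀ᶠ x : ℝ in atTop, Chebyshev.psi x ≤ 1.1057 * x := by
  obtain ⟨K, hK0, hK⟩ := psi_le_nat
  filter_upwards [eventually_ge_atTop (100000 * (K + 1) : ℝ)] with x hx
  rw [Chebyshev.psi_eq_psi_coe_floor]
  have hfl2 : (⌊x⌋₊ : ℝ) ≤ x := Nat.floor_le (by linarith)
  have h1 := hK ⌊x⌋₊
  linarith

/-- Chebyshev's lower bound `0.9212 x / log x ≤ π x` for large `x`. -/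
theorem eventually_pi_ge : ∀ᶠ x : ℝ in atTop,
    0.9212 * (x / Real.log x) ≤ (Nat.primeCounting ⌊x⌋₊ : ℝ) := by
  filter_upwards [eventually_psi_ge, eventually_gt_atTop (1 : ℝ)] with x hx hx1
  have hlog : 0 < Real.log x := Real.log_pos hx1
  have h1 := Chebyshev.psi_le_primeCounting_mul_log' x
  rw [← mul_div_assoc, div_le_iff₀ hlog]
  linarith

/-- Chebyshev's upper bound `π x ≤ 1.106 x / log x` for large `x`. -/
theorem eventually_pi_le : ∀ᶠ x : ℝ in atTop,
    (Nat.primeCounting ⌊x⌋₊ : ℝ) ≤ 1.106 * (x / Real.log x) := by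
  have := Chebyshev.integral_theta_div_log_sq_isLittleO.bound (c := 0.0001) (by norm_num)
  filter_upwards [eventually_psi_le, eventually_ge_atTop (2 : ℝ), this] with x hx hx1 hx2
  have hlog : 0 < Real.log x := Real.log_pos (by linarith)
  rw [Chebyshev.primeCounting_eq_theta_div_log_add_integral hx1]
  have h1 := Chebyshev.theta_le_psi x
  have h2 : Chebyshev.theta x / Real.log x ≤ 1.1057 * (x / Real.log x) := by
    rw [← mul_div_assoc, div_le_div_iff_of_pos_right hlog]
    linarith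
  have h3 : 0 ≤ x / Real.log x := by positivity
  rw [Real.norm_of_nonneg h3] at hx2
  have h4 := (Real.le_norm_self _).trans hx2
  linarith


/-- Comparison of `π (c x)` and `π x` at different scales, for large `x`. -/
theorem eventually_window (κ c : ℝ) (hκ : 0 < κ) (hc : 0 < c)
    (hkc : κ * (1.106 * c) < 0.999 * 0.92) :
    ∀ᶠ x : ℝ in atTop, κ * (Nat.primeCounting ⌊c * x⌋₊ : ℝ) + x ^ (3 / 4 : ℝ) + 2 ≤
      (Nat.primeCounting ⌊x⌋₊ : ℝ) := by
  have hcx : Tendsto (fun x : ℝ => c * x) atTop atTop :=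
    Filter.Tendsto.const_mul_atTop hc tendsto_id
  have hlogt : Tendsto Real.log atTop atTop := Real.tendsto_log_atTop
  have h1 := eventually_pi_ge
  have h2 := hcx.eventually eventually_pi_le
  have h3 : ∀ᶠ x : ℝ in atTop, (-Real.log c) * 1000 ≤ Real.log x :=
    hlogt.eventually_ge_atTop _
  have h4 := (isLittleO_log_rpow_atTop (r := 1 / 4) (by norm_num)).bound (c := 0.0005)
    (by norm_num)
  have h5 := Real.isLittleO_log_id_atTop.bound (c := 0.0001) (by norm_num)
  filter_upwards [h1, h2, h3, h4, h5, eventually_gt_atTop (1 : ℝ), eventually_gt_atTop (1 / c)]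
    with x h1 h2 h3 h4 h5 h6 h7
  have hx0 : 0 < x := by linarith
  have hlog : 0 < Real.log x := Real.log_pos h6
  have hcx1 : 1 < c * x := by
    rw [div_lt_iff₀ hc] at h7; linarith
  have hlogc : Real.log (c * x) = Real.log c + Real.log x := Real.log_mul hc.ne' hx0.ne'
  have hlog2 : 0.999 * Real.log x ≤ Real.log (c * x) := by rw [hlogc]; linarith
  have hlog3 : 0 < Real.log (c * x) := Real.log_pos hcx1
  have h8 : c * x / Real.log (c * x) ≤ c * x / (0.999 * Real.log x) := by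
    apply div_le_div_of_nonneg_left (by positivity) (by positivity) hlog2
  have h9 : c * x / (0.999 * Real.log x) = (c / 0.999) * (x / Real.log x) := by
    field_simp
  have h10 : κ * (Nat.primeCounting ⌊c * x⌋₊ : ℝ) ≤ κ * (1.106 * ((c / 0.999) * (x / Real.log x))) := by
    apply mul_le_mul_of_nonneg_left _ hκ.le
    refine h2.trans ?_
    apply mul_le_mul_of_nonneg_left _ (by norm_num)
    rw [← h9]; exact h8
  simp only [Real.norm_eq_abs, id_eq] at h4 h5
  rw [abs_of_nonneg hlog.le, abs_of_nonneg (by positivity)] at h4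
  rw [abs_of_nonneg hlog.le, abs_of_nonneg hx0.le] at h5
  have h11 : x ^ (3 / 4 : ℝ) * x ^ (1 / 4 : ℝ) = x := by
    rw [← Real.rpow_add hx0]; norm_num
  have hp : 0 < x ^ (3 / 4 : ℝ) := by positivity
  have h12 : (x ^ (3 / 4 : ℝ) + 2) * Real.log x ≤ 0.001 * x := by nlinarith
  have h13 : x ^ (3 / 4 : ℝ) + 2 ≤ 0.001 * (x / Real.log x) := by
    rw [← mul_div_assoc, le_div_iff₀ hlog]; exact h12
  have h14 : κ * (1.106 * ((c / 0.999) * (x / Real.log x))) ≤ 0.92 * (x / Real.log x) := by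
    have : κ * (1.106 * ((c / 0.999) * (x / Real.log x)))
      = (κ * (1.106 * c) / 0.999) * (x / Real.log x) := by ring
    rw [this]
    apply mul_le_mul_of_nonneg_right _ (by positivity)
    rw [div_le_iff₀ (by norm_num)]
    linarith
  have h15 : 0 < x / Real.log x := by positivity
  linarith

end Pool.Agent.Helper45.Cheb
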