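import Pool.Agent.Helper16.FF8
import Pool.Agent.Helper33.PlaceSys

/-!
# One-variable function fields over an algebraically closed field of characteristic `p`
give place systems
-/

set_option autoImplicit false
set_option linter.style.haveILetI false

namespace Pool.Agent.Helper45.FF

open Polynomial IntermediateField Pool.Agent.Helper16 TensorProduct IsDedekindDomain

section deriv

variable {k K : Type} [Field k] [Field K] [Algebra k K]

theorem exists_deriv (t : K) (ht : Transcendental k t) [Algebra.IsSeparable k⟮t⟯ K] :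
    ∃ D : Derivation k K K, D t = 1 := by
  letI := algX k t
  letI := algXF k t
  haveI := towerXF (K := k) t
  haveI := towerX (K := k) t
  haveI := isFractionRing_algXF t ht
  haveI : Algebra.FormallyEtale k[X] k⟮t⟯ :=
    Algebra.FormallyEtale.of_isLocalization (nonZeroDivisors k[X])
  haveI : Algebra.FormallyEtale k⟮t⟯ K := Algebra.FormallyEtale.of_isSeparable _ _
  haveI : Algebra.FormallyEtale k[X] K := Algebra.FormallyEtale.comp k[X] k⟮t⟯ K
  let e1 := (KaehlerDifferential.tensorKaehlerEquivOfFormallyEtale k k[X] K).symm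
  let e2 : K ⊗[k[X]] (Ω[k[X]⁄k]) ≃ₗ[K] K ⊗[k[X]] k[X] :=
    (KaehlerDifferential.polynomialEquiv k).baseChange k[X] K _ _
  let e3 : K ⊗[k[X]] k[X] ≃ₗ[K] K := AlgebraTensorModule.rid k[X] K K
  let f : Ω[K⁄k] →ₗ[K] K := (e3.toLinearMap ∘ₗ e2.toLinearMap) ∘ₗ e1.toLinearMap
  refine ⟨f.compDer (KaehlerDifferential.D k K), ?_⟩
  have h1 : t = algebraMap k[X] K X := by
    change t = aeval t X
    simp
  change e3 (e2 (e1 (KaehlerDifferential.D k K t))) = 1
  conv_lhs => rw [h1]
  have h2 : e1 (KaehlerDifferential.D k K (algebraMap k[X] K X)) =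
      1 ⊗ₜ KaehlerDifferential.D k k[X] X :=
    KaehlerDifferential.tensorKaehlerEquivOfFormallyEtale_symm_D_algebraMap k k[X] K X
  rw [h2]
  have h3 : e2 ((1 : K) ⊗ₜ[k[X]] KaehlerDifferential.D k k[X] X) = (1 : K) ⊗ₜ[k[X]] (1 : k[X]) := by
    simp [e2]
  rw [h3]
  simp [e3]

end deriv

section kernel

variable {k K : Type} [Field k] [Field K] [Algebra k K]

theorem deriv_pow_p (p : ℕ) [CharP K p] (D : Derivation k K K) (y : K) : D (y ^ p) = 0 := by
  rw [Derivation.leibniz_pow]
  simp

/-- `D` as a derivation over the subfield of `p`-th powers. -/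
noncomputable def derL (p : ℕ) [Fact p.Prime] [CharP K p] (D : Derivation k K K) :
    Derivation (frobenius K p).fieldRange K K :=
  Derivation.mk'
    { toFun := D
      map_add' := fun a b => map_add D a b
      map_smul' := by
        rintro ⟨_, y, rfl⟩ b
        simp only [Subfield.smul_def, smul_eq_mul, RingHom.id_apply]
        rw [Derivation.leibniz]
        have : D (frobenius K p y) = 0 := by
          rw [frobenius_def]; exact deriv_pow_p p D y
        rw [this]
        simp }
    (fun a b => by
      change D (a * b) = _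
      rw [Derivation.leibniz]
      rfl)

theorem derL_apply (p : ℕ) [Fact p.Prime] [CharP K p] (D : Derivation k K K) (x : K) :
    derL p D x = D x := rfl

theorem derivative_eq_zero_of_lt {L : Type} [Field L] (p : ℕ) [Fact p.Prime] [CharP L p]
    (Q : L[X]) (hQ : Q.natDegree < p) (h : derivative Q = 0) : Q = C (Q.coeff 0) := by
  ext n
  rw [coeff_C]
  rcases Nat.eq_zero_or_pos n with hn | hn
  · simp [hn]
  · rw [if_neg (by omega)]
    by_cases hnd : n < p
    · have h1 := congrArg (fun R => coeff R (n - 1)) h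
      simp only [coeff_derivative, coeff_zero] at h1
      have h2 : n - 1 + 1 = n := by omega
      rw [h2] at h1
      rcases mul_eq_zero.1 h1 with h3 | h3
      · exact h3
      · exfalso
        have h4 : ((n : ℕ) : L) = 0 := by
          rw [← h3, ← h2]; push_cast; simp
        rw [CharP.cast_eq_zero_iff L p] at h4
        exact absurd (Nat.le_of_dvd hn h4) (by omega)
    · exact coeff_eq_zero_of_natDegree_lt (by omega)

theorem eq_zero_of_aeval_eq_zero (p : ℕ) [Fact p.Prime] [CharP K p] (D : Derivation k K K) (t : K)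
    (hD : D t = 1) (n : ℕ) (Q : (frobenius K p).fieldRange[X]) (hn : Q.natDegree ≤ n) (hnp : n < p)
    (h : aeval t Q = 0) : Q = 0 := by
  haveI : CharP (frobenius K p).fieldRange p :=
    (algebraMap (frobenius K p).fieldRange K).charP (algebraMap (frobenius K p).fieldRange K).injective p
  induction n generalizing Q with
  | zero =>
    rw [Nat.le_zero] at hn
    rw [eq_C_of_natDegree_eq_zero hn] at h ⊢
    rw [aeval_C] at h
    have := (map_eq_zero_iff _ (algebraMap (frobenius K p).fieldRange K).injective).1 h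
    rw [this, C_0]
  | succ n ih =>
    have h1 : aeval t (derivative Q) = 0 := by
      have h2 := Derivation.map_aeval (derL p D) Q t
      rw [h, map_zero, derL_apply, hD] at h2
      simpa using h2.symm
    have h3 : derivative Q = 0 := ih _ ((natDegree_derivative_le Q).trans (by omega)) (by omega) h1
    have h4 := derivative_eq_zero_of_lt p Q (by omega) h3
    rw [h4] at h ⊢
    rw [aeval_C] at h
    have := (map_eq_zero_iff _ (algebraMap (frobenius K p).fieldRange K).injective).1 h
    rw [this, C_0]

theorem adjoin_frob_eq_top (p : ℕ) [Fact p.Prime] [CharP k p] [CharP K p] [PerfectField k]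
    (t : K) [Algebra.IsSeparable k⟮t⟯ K] :
    IntermediateField.adjoin (frobenius K p).fieldRange {t} = ⊤ := by
  haveI : PerfectRing k p := PerfectField.toPerfectRing p
  let T := IntermediateField.adjoin (frobenius K p).fieldRange {t}
  let T1 : IntermediateField k K := T.toSubfield.toIntermediateField (by
    intro a
    obtain ⟨b, hb⟩ := surjective_frobenius k p a
    have h1 : algebraMap k K a ∈ (frobenius K p).fieldRange := by
      refine ⟨algebraMap k K b, ?_⟩
      rw [← hb, frobenius_def, frobenius_def, map_pow]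
    exact T.algebraMap_mem ⟨_, h1⟩)
  have h1 : k⟮t⟯ ≤ T1 := by
    rw [adjoin_simple_le_iff]
    exact mem_adjoin_simple_self _ t
  let T2 : IntermediateField k⟮t⟯ K := T.toSubfield.toIntermediateField (fun a => h1 a.2)
  haveI : ExpChar k⟮t⟯ p := by
    haveI : CharP k⟮t⟯ p := (algebraMap k⟮t⟯ K).charP (algebraMap k⟮t⟯ K).injective p
    infer_instance
  have h2 : IntermediateField.adjoin k⟮t⟯ ((· ^ p) '' (Set.univ : Set K)) ≤ T2 := by
    rw [adjoin_le_iff]
    rintro _ ⟨y, -, rfl⟩
    have h1 : y ^ p ∈ (frobenius K p).fieldRange := ⟨y, frobenius_def p y⟩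
    exact T.algebraMap_mem ⟨_, h1⟩
  rw [← adjoin_eq_adjoin_pow_expChar_of_isSeparable' k⟮t⟯ K Set.univ p, adjoin_univ] at h2
  rw [eq_top_iff]
  intro x _
  exact h2 (mem_top (x := x))

theorem exists_pow_of_deriv_eq_zero (p : ℕ) [Fact p.Prime] [CharP k p] [CharP K p] [PerfectField k]
    (t : K) [Algebra.IsSeparable k⟮t⟯ K] (D : Derivation k K K) (hD : D t = 1)
    (x : K) (hx : D x = 0) : ∃ y, y ^ p = x := by
  let L := (frobenius K p).fieldRange
  haveI : CharP L p := (algebraMap L K).charP (algebraMap L K).injective p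
  let a : L := ⟨t ^ p, ⟨t, frobenius_def p t⟩⟩
  have hp : 0 < p := (Fact.out : p.Prime).pos
  have hM : (X ^ p - C a : L[X]).Monic := monic_X_pow_sub_C a hp.ne'
  have hMt : aeval t (X ^ p - C a : L[X]) = 0 := by
    rw [map_sub, map_pow, aeval_X, aeval_C]
    exact sub_self _
  have hint : IsIntegral L t := ⟨_, hM, hMt⟩
  have h1 : x ∈ IntermediateField.adjoin L {t} := by
    rw [adjoin_frob_eq_top (k := k) p t]; exact mem_top
  have h2 : x ∈ Algebra.adjoin L {t} := by
    rw [← IntermediateField.adjoin_simple_toSubalgebra_of_isAlgebraic hint.isAlgebraic]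
    exact h1
  rw [Algebra.adjoin_singleton_eq_range_aeval] at h2
  obtain ⟨P, hP⟩ := h2
  have hP' : aeval t P = x := hP
  let Q := P %ₘ (X ^ p - C a : L[X])
  have hQ : aeval t Q = x := by
    have := P.modByMonic_add_div (X ^ p - C a : L[X])
    rw [← hP']
    conv_rhs => rw [← this]
    rw [map_add, map_mul, hMt, zero_mul, add_zero]
  have hQd : Q.natDegree < p := by
    have := natDegree_modByMonic_lt P hM (by
      intro h
      have := congrArg natDegree h
      rw [natDegree_X_pow_sub_C] at this
      simp at this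
      omega)
    rwa [natDegree_X_pow_sub_C] at this
  have h3 : aeval t (derivative Q) = 0 := by
    have h2 := Derivation.map_aeval (derL p D) Q t
    rw [hQ, derL_apply, derL_apply, hD, hx] at h2
    simpa using h2.symm
  have h4 : derivative Q = 0 :=
    eq_zero_of_aeval_eq_zero p D t hD (p - 1) _ ((natDegree_derivative_le Q).trans (by omega))
      (by omega) h3
  have h5 := derivative_eq_zero_of_lt p Q hQd h4
  obtain ⟨y, hy⟩ := (Q.coeff 0).2
  refine ⟨y, ?_⟩
  rw [← hQ, h5, aeval_C]
  rw [frobenius_def] at hy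
  exact hy

end kernel

section bound

variable {k K : Type} [Field k] [Field K] [Algebra k K]

/-- the error denominator for `D` over `k[s]` -/
theorem exists_denominator (s : K) (hs : Transcendental k s) [FiniteDimensional k⟮s⟯ K]
    (D : Derivation k K K) (q : k[X]) (hD : D s = aeval s q) :
    ∃ g : K, g ≠ 0 ∧ IntOver k s g ∧ ∀ x, IntOver k s x → IntOver k s (g * D x) := by
  classical
  letI := algX k s
  letI := algXF k s
  haveI := towerXF (K := k) s
  haveI := towerX (K := k) s
  haveI := isFractionRing_algXF s hs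
  haveI := faithfulX s hs
  haveI : Algebra.IsAlgebraic k⟮s⟯ K := inferInstance
  haveI : Algebra.IsAlgebraic k[X] K := by
    haveI : Algebra.IsAlgebraic k[X] k⟮s⟯ := IsLocalization.isAlgebraic k⟮s⟯ (nonZeroDivisors k[X])
    exact Algebra.IsAlgebraic.trans k[X] k⟮s⟯ K
  obtain ⟨S, hS⟩ := (finite_integralClosure s hs).fg_top
  obtain ⟨c, hc0, hc⟩ := Algebra.IsAlgebraic.exists_integral_multiples (R := k[X]) (A := K)
    (S.image (fun b : IC k s => D (b : K)))
  have hg0 : aeval s c ≠ 0 := by
    intro h
    exact hs ⟨c, hc0, h⟩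
  refine ⟨aeval s c, hg0, IntOver.aeval_mem s c, ?_⟩
  intro x hx
  have key : ∀ y : integralClosure k[X] K, y ∈ Submodule.span k[X] (S : Set (integralClosure k[X] K)) →
      IntOver k s (aeval s c * D (y : K)) := by
    intro y hy
    induction hy using Submodule.span_induction with
    | mem b hb =>
      have h1 := hc (D (b : K)) (Finset.mem_image_of_mem _ hb)
      rw [Algebra.smul_def, algX_apply] at h1
      exact h1
    | zero => simpa using IntOver.zero (K := k) s
    | add a b _ _ ha hb =>
      have h1 : aeval s c * D ((a + b : integralClosure k[X] K) : K) =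
          aeval s c * D (a : K) + aeval s c * D (b : K) := by
        rw [Subalgebra.coe_add, map_add, mul_add]
      rw [h1]
      exact ha.add hb
    | smul f b _ hb =>
      have h1 : aeval s c * D ((f • b : integralClosure k[X] K) : K) =
          aeval s f * (aeval s c * D (b : K)) + aeval s c * (b : K) * (aeval s (derivative f) * aeval s q) := by
        rw [Subalgebra.coe_smul, Algebra.smul_def, algX_apply, Derivation.leibniz, Derivation.map_aeval, hD]
        simp only [smul_eq_mul]
        ring
      rw [h1]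
      have hb' : IntOver k s (b : K) := b.2
      exact ((IntOver.aeval_mem s f).mul hb).add
        (((IntOver.aeval_mem s c).mul hb').mul ((IntOver.aeval_mem s _).mul (IntOver.aeval_mem s q)))
  have := key ⟨x, hx⟩ (by rw [hS]; exact Submodule.mem_top)
  exact this

theorem exists_frac (s : K) (hs : Transcendental k s) [FiniteDimensional k⟮s⟯ K]
    (v : Place k K) (hv : v.val s ≤ 1) (x : K) (hx : v.val x ≤ 1) :
    ∃ a b : K, IntOver k s a ∧ IntOver k s b ∧ v.val b = 1 ∧ x * b = a := by
  obtain ⟨P, rfl⟩ := exists_placeOfPrime s hs v hv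
  haveI := isDedekindDomain_IC s hs
  haveI := isFractionRing_IC s hs
  obtain ⟨n, d, h⟩ := P.exists_primeCompl_mul_eq_of_integer (K := K) x hx
  refine ⟨n, (d : IC k s), n.2, (d : IC k s).2, ?_, h⟩
  exact (P.valuation_eq_one_iff_notMem (K := K)).2 d.2

theorem val_D_le (s : K) (hs : Transcendental k s) [FiniteDimensional k⟮s⟯ K]
    (D : Derivation k K K) (g : K) (hg : ∀ x, IntOver k s x → IntOver k s (g * D x))
    (v : Place k K) (hv : v.val s ≤ 1) (x : K) (hx : v.val x ≤ 1) :
    v.val g * v.val (D x) ≤ 1 := by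
  obtain ⟨a, b, ha, hb, hb1, hab⟩ := exists_frac s hs v hv x hx
  have hDa : v.val (g * D a) ≤ 1 := (hg a ha).mem_ring v hv
  have hDb : v.val (g * D b) ≤ 1 := (hg b hb).mem_ring v hv
  have h1 : g * D x * b = g * D a - x * (g * D b) := by
    rw [← hab, Derivation.leibniz]
    simp only [smul_eq_mul]
    ring
  have h2 : v.val (g * D x * b) ≤ 1 := by
    rw [h1]
    refine (v.val.map_sub _ _).trans (max_le hDa ?_)
    rw [map_mul]
    exact mul_le_one' hx hDb
  rwa [map_mul, map_mul, hb1, mul_one] at h2

end bound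

section final

variable {k K : Type} [Field k] [Field K] [Algebra k K]

theorem ord_D_ge (v : Place k K) (D : Derivation k K K) (g : K) (hg0 : g ≠ 0) (e : ℕ)
    (he : v.ord g ≤ e) (x : K) (hx : v.val g * v.val (D x) ≤ 1) (hDx : D x ≠ 0) :
    -(e : ℤ) ≤ v.ord (D x) := by
  rw [← map_mul, ← v.ord_nonneg_iff (mul_ne_zero hg0 hDx), v.ord_mul hg0 hDx] at hx
  omega

theorem val_le_exp_iff (v : Place k K) (x : K) (hx : x ≠ 0) (n : ℤ) :
    v.val x ≤ WithZero.exp n ↔ -n ≤ v.ord x := by
  have h0 : v.val x ≠ 0 := by simpa using hx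
  rw [Place.ord, ← WithZero.log_le_log h0 WithZero.exp_ne_zero, WithZero.log_exp]
  omega

theorem val_D_mul (v : Place k K) (D : Derivation k K K) (E : WithZero (Multiplicative ℤ))
    (x y : K) (hx : v.val (D x) ≤ E * v.val x) (hy : v.val (D y) ≤ E * v.val y) :
    v.val (D (x * y)) ≤ E * v.val (x * y) := by
  rw [Derivation.leibniz]
  refine (v.val.map_add _ _).trans (max_le ?_ ?_)
  · rw [smul_eq_mul, map_mul, map_mul, mul_left_comm]
    exact mul_le_mul_right hy _
  · rw [smul_eq_mul, map_mul, map_mul, mul_comm (v.val x), mul_left_comm]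
    exact mul_le_mul_right hx _

theorem val_D_inv (v : Place k K) (D : Derivation k K K) (E : WithZero (Multiplicative ℤ))
    (x : K) (hx : v.val (D x) ≤ E * v.val x) : v.val (D x⁻¹) ≤ E * v.val x⁻¹ := by
  by_cases h0 : x = 0
  · subst h0; simp
  have hv0 : v.val x ≠ 0 := by simpa using h0
  rw [Derivation.leibniz_inv, smul_eq_mul, map_mul, Valuation.map_neg, map_pow, map_inv₀]
  calc (v.val x)⁻¹ ^ 2 * v.val (D x) ≤ (v.val x)⁻¹ ^ 2 * (E * v.val x) := mul_le_mul_right hx _
    _ = E * (v.val x)⁻¹ := by
      field_simp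

theorem val_D_pow (v : Place k K) (D : Derivation k K K) (E : WithZero (Multiplicative ℤ))
    (x : K) (hx : v.val (D x) ≤ E * v.val x) (n : ℕ) : v.val (D (x ^ n)) ≤ E * v.val (x ^ n) := by
  induction n with
  | zero => simp
  | succ n ih =>
    rw [pow_succ]
    exact val_D_mul v D E _ _ ih hx

theorem val_D_zpow (v : Place k K) (D : Derivation k K K) (E : WithZero (Multiplicative ℤ))
    (x : K) (hx : v.val (D x) ≤ E * v.val x) (n : ℤ) : v.val (D (x ^ n)) ≤ E * v.val (x ^ n) := by
  cases n with
  | ofNat n => simpa using val_D_pow v D E x hx n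
  | negSucc n =>
    rw [zpow_negSucc]
    exact val_D_inv v D E _ (val_D_pow v D E x hx (n + 1))

theorem ord_D_ge_gen (v : Place k K) (D : Derivation k K K) (e : ℕ)
    (he : ∀ x, v.val x ≤ 1 → v.val (D x) ≤ WithZero.exp (e : ℤ)) (x : K) (hx : x ≠ 0)
    (hDx : D x ≠ 0) : v.ord x - 1 - (e : ℤ) ≤ v.ord (D x) := by
  obtain ⟨π, hπ0, hπ⟩ := v.exists_uniformizer
  let E : WithZero (Multiplicative ℤ) := WithZero.exp ((e : ℤ) + 1)
  have h1 : v.val (D π) ≤ E * v.val π := by
    rw [hπ, ← WithZero.exp_add]
    refine (he π ?_).trans (by simp)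
    rw [hπ]; exact exp_neg_one_lt.le
  let n : ℤ := v.ord x
  have hx0 : v.val x ≠ 0 := by simpa using hx
  have hvx : v.val x = WithZero.exp (-n) := by
    change v.val x = WithZero.exp (-(-WithZero.log (v.val x)))
    rw [neg_neg, WithZero.exp_log hx0]
  let u : K := x * π ^ (-n)
  have hu : v.val u = 1 := by
    rw [map_mul, map_zpow₀, hπ, hvx, ← WithZero.exp_zsmul, ← WithZero.exp_add]
    simp
  have hxu : x = π ^ n * u := by
    change x = π ^ n * (x * π ^ (-n))
    rw [zpow_neg]
    field_simp
  have h2 : v.val (D u) ≤ E * v.val u := by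
    rw [hu, mul_one]
    refine (he u hu.le).trans ?_
    rw [WithZero.exp_le_exp]
    omega
  have h3 := val_D_mul v D E _ _ (val_D_zpow v D E π h1 n) h2
  rw [← hxu, hvx, ← WithZero.exp_add, val_le_exp_iff v _ hDx] at h3
  change n - 1 - (e : ℤ) ≤ _
  omega

theorem isFunctionField_of (hfg : (⊤ : IntermediateField k K).FG)
    (htr : ∃ x : K, Transcendental k x ∧ Algebra.IsAlgebraic (IntermediateField.adjoin k {x}) K) :
    IsFunctionField k K := by
  obtain ⟨x, hx, halg⟩ := htr
  refine ⟨IntermediateField.fg_top_iff.1 hfg, ?_⟩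
  have h1 : AlgebraicIndependent k (fun _ : Unit => x) :=
    algebraicIndependent_unique_type_iff.2 hx
  have h2 : IsTranscendenceBasis k (fun _ : Unit => x) := by
    rw [h1.isTranscendenceBasis_iff_isAlgebraic]
    have : Set.range (fun _ : Unit => x) = {x} := by simp
    rw [this]
    rw [← IntermediateField.isAlgebraic_adjoin_iff_top]
    exact halg
  have h3 := h2.lift_cardinalMk_eq_trdeg
  simpa using h3.symm

theorem deg_eq_one [IsAlgClosed k] (hN : IsFunctionField k K) (v : Place k K) : v.deg = 1 := by
  haveI := v.finite_resField hN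
  have h1 : Function.Bijective (algebraMap k v.resField) :=
    IsAlgClosed.algebraMap_bijective_of_isIntegral
  unfold Place.deg
  have := (LinearEquiv.ofBijective (Algebra.linearMap k v.resField) h1).finrank_eq
  rw [← this]
  exact Module.finrank_self k

theorem exists_const [IsAlgClosed k] (hN : IsFunctionField k K) (x : K) (hx : x ≠ 0)
    (h : ∀ v : Place k K, v.ord x = 0) : ∃ c : k, algebraMap k K c = x := by
  by_cases hxa : IsAlgebraic k x
  · have : IsIntegral k x := hxa.isIntegral
    haveI : FiniteDimensional k k⟮x⟯ := adjoin.finiteDimensional this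
    obtain ⟨c, hc⟩ := (IsAlgClosed.algebraMap_bijective_of_isIntegral (k := k) (K := k⟮x⟯)).2
      (⟨x, mem_adjoin_simple_self k x⟩)
    exact ⟨c, congrArg Subtype.val hc⟩
  · exfalso
    obtain ⟨S, h1, h2, h3⟩ := hN.zeros x hxa
    have hS : S = ∅ := by
      rw [Finset.eq_empty_iff_forall_notMem]
      intro v hv
      rw [h1, ← v.ord_pos_iff hx, h v] at hv
      exact lt_irrefl _ hv
    rw [hS, Finset.sum_empty] at h2
    omega

theorem exists_placeSys (p : ℕ) [Fact p.Prime] (k K : Type) [Field k] [IsAlgClosed k] [CharP k p]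
    [Field K] [Algebra k K]
    (hfg : (⊤ : IntermediateField k K).FG)
    (htr : ∃ x : K, Transcendental k x ∧ Algebra.IsAlgebraic (IntermediateField.adjoin k {x}) K) :
    ∃ (V : Type), Nonempty (Pool.Agent.Helper33.PlaceSys p k K V) := by
  classical
  have hN : IsFunctionField k K := isFunctionField_of hfg htr
  haveI := hN.1
  haveI : CharP K p := charP_of_injective_algebraMap (algebraMap k K).injective p
  obtain ⟨S, hS1, hS2⟩ := exists_isTranscendenceBasis_and_isSeparable_of_perfectField k K
  have hcard : S.card = 1 := by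
    have h3 := hS1.lift_cardinalMk_eq_trdeg
    rw [hN.2] at h3
    simpa using h3
  obtain ⟨t, rfl⟩ := Finset.card_eq_one.1 hcard
  have ht : Transcendental k t := by
    have := hS1.1
    have h2 := this.transcendental ⟨t, by simp⟩
    exact h2
  haveI : Algebra.IsSeparable k⟮t⟯ K := by
    rw [Finset.coe_singleton] at hS2
    exact hS2
  haveI := hN.finiteDimensional t ht
  obtain ⟨D, hD⟩ := exists_deriv t ht
  obtain ⟨g1, hg10, -, hg1⟩ := exists_denominator t ht D 1 (by rw [hD]; simp)
  haveI := finiteDimensional_inv (K := k) t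
  obtain ⟨g2, hg20, -, hg2⟩ := exists_denominator t⁻¹ (transcendental_inv ht) D (-X ^ 2) (by
    rw [Derivation.leibniz_inv, hD]; simp)
  let e : Place k K → ℕ := fun v => (v.ord g1).toNat + (v.ord g2).toNat
  have hfin : ∀ x : K, {v : Place k K | v.ord x ≠ 0}.Finite := by
    intro x
    obtain ⟨S, h1, -⟩ := hN.product_formula x
    refine S.finite_toSet.subset ?_
    intro v hv
    exact (h1 v).2 hv
  have hval : ∀ (v : Place k K) (x : K), v.val x ≤ 1 → D x ≠ 0 → -(e v : ℤ) ≤ v.ord (D x) := by
    intro v x hx hDx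
    rcases le_total (v.val t) 1 with h | h
    · refine ord_D_ge v D g1 hg10 (e v) ?_ x (val_D_le t ht D g1 hg1 v h x hx) hDx
      have := Int.self_le_toNat (v.ord g1)
      simp only [e]
      push_cast
      omega
    · have h' : v.val t⁻¹ ≤ 1 := by
        rw [map_inv₀]
        exact inv_le_one_of_one_le₀ h
      refine ord_D_ge v D g2 hg20 (e v) ?_ x (val_D_le t⁻¹ (transcendental_inv ht) D g2 hg2 v h' x hx) hDx
      have := Int.self_le_toNat (v.ord g2)
      simp only [e]
      push_cast
      omega
  refine ⟨Place k K, ⟨?_⟩⟩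
  refine
    { pl := fun v => ⟨v.ord, fun x y hx hy => v.ord_mul hx hy, fun x y hx hy hxy => ?_⟩
      ord_finite := fun x _ => hfin x
      sum_ord := ?_
      D := D
      D_add := fun x y => map_add D x y
      D_mul := fun x y => by rw [Derivation.leibniz]; rfl
      D_eq_zero := fun x hx => exists_pow_of_deriv_eq_zero p t D hD x hx
      e := e
      e_finite := ?_
      ord_D := ?_
      ord_D' := ?_
      const := fun x hx h => exists_const hN x hx h }
  · have h1 := v.val.map_add x y
    have hx0 : v.val x ≠ 0 := by simpa using hx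
    have hy0 : v.val y ≠ 0 := by simpa using hy
    have hxy0 : v.val (x + y) ≠ 0 := by simpa using hxy
    simp only [Place.ord]
    rcases le_max_iff.1 h1 with h2 | h2
    · rw [← WithZero.log_le_log hxy0 hx0] at h2
      exact (min_le_left _ _).trans (by omega)
    · rw [← WithZero.log_le_log hxy0 hy0] at h2
      exact (min_le_right _ _).trans (by omega)
  · intro x hx
    obtain ⟨S, h1, h2⟩ := hN.product_formula x
    simp only [deg_eq_one hN, Nat.cast_one, mul_one] at h2
    rw [finsum_eq_sum_of_support_subset _ (s := S), h2]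
    intro v hv
    exact (h1 v).2 hv
  · refine ((hfin g1).union (hfin g2)).subset ?_
    intro v hv
    by_contra hcon
    simp only [Set.mem_union, Set.mem_ofPred_eq, not_or, not_not] at hcon
    apply hv
    simp only [e]
    rw [hcon.1, hcon.2]
    simp
  · intro v x hx hDx
    refine ord_D_ge_gen v D (e v) ?_ x hx hDx
    intro y hy
    by_cases hDy : D y = 0
    · rw [hDy, map_zero]; exact zero_le
    · rw [val_le_exp_iff v _ hDy]
      exact hval v y hy hDy
  · intro v x hx hDx h0
    refine hval v x ?_ hDx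
    exact (v.ord_nonneg_iff hx).1 h0

end final

end Pool.Agent.Helper45.FF
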