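import Pool.Agent.Helper45.FFPlaces
import Pool.Agent.Helper33.PSys

/-!
# One-variable function fields over an algebraically closed field (any characteristic)
give place systems `PSys`
-/

set_option autoImplicit false
set_option linter.style.haveILetI false

namespace Pool.Agent.Helper45.FF

open Polynomial IntermediateField Pool.Agent.Helper16 TensorProduct IsDedekindDomain
open Pool.Agent.Helper33

section common

variable {k K : Type} [Field k] [Field K] [Algebra k K]

/-- the abstract discrete valuation of a place -/
noncomputable def plDV (v : Place k K) : DV K where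
  o := v.ord
  mul := fun _ _ hx hy => v.ord_mul hx hy
  add := fun x y hx hy hxy => by
    have h1 := v.val.map_add x y
    have hx0 : v.val x ≠ 0 := by simpa using hx
    have hy0 : v.val y ≠ 0 := by simpa using hy
    have hxy0 : v.val (x + y) ≠ 0 := by simpa using hxy
    simp only [Place.ord]
    rcases le_max_iff.1 h1 with h2 | h2
    · rw [← WithZero.log_le_log hxy0 hx0] at h2
      exact (min_le_left _ _).trans (by omega)
    · rw [← WithZero.log_le_log hxy0 hy0] at h2
      exact (min_le_right _ _).trans (by omega)

/-- The place system attached to a function field of one variable over an algebraically closed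
field and a derivation with `D t = 1`. -/
theorem exists_psys_aux [IsAlgClosed k] (hN : IsFunctionField k K) (t : K)
    (ht : Transcendental k t) (D : Derivation k K K) (hD : D t = 1) :
    ∃ P : PSys k K (Place k K), (∀ x, P.D x = D x) ∧ (∀ v, P.pl v = plDV v) := by
  classical
  haveI := hN.finiteDimensional t ht
  obtain ⟨g1, hg10, -, hg1⟩ := exists_denominator t ht D 1 (by rw [hD]; simp)
  haveI := finiteDimensional_inv (K := k) t
  obtain ⟨g2, hg20, -, hg2⟩ := exists_denominator t⁻¹ (transcendental_inv ht) D (-X ^ 2) (by
    rw [Derivation.leibniz_inv, hD]; simp)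
  let e : Place k K → ℕ := fun v => (v.ord g1).toNat + (v.ord g2).toNat
  have hfin : ∀ x : K, {v : Place k K | v.ord x ≠ 0}.Finite := by
    intro x
    obtain ⟨S, h1, -⟩ := hN.product_formula x
    refine S.finite_toSet.subset ?_
    intro v hv
    exact (h1 v).2 hv
  have hval : ∀ (v : Place k K) (x : K), v.val x ≤ 1 → D x ≠ 0 → -(e v : ℤ) ≤ v.ord (D x) := by
    intro v x hx hDx
    rcases le_total (v.val t) 1 with h | h
    · refine ord_D_ge v D g1 hg10 (e v) ?_ x (val_D_le t ht D g1 hg1 v h x hx) hDx
      have := Int.self_le_toNat (v.ord g1)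
      simp only [e]
      push_cast
      omega
    · have h' : v.val t⁻¹ ≤ 1 := by
        rw [map_inv₀]
        exact inv_le_one_of_one_le₀ h
      refine ord_D_ge v D g2 hg20 (e v) ?_ x (val_D_le t⁻¹ (transcendental_inv ht) D g2 hg2 v h' x hx) hDx
      have := Int.self_le_toNat (v.ord g2)
      simp only [e]
      push_cast
      omega
  refine ⟨
    { pl := fun v => plDV v
      ord_finite := fun x _ => hfin x
      sum_ord := ?_
      D := D
      D_add := fun x y => map_add D x y
      D_mul := fun x y => by rw [Derivation.leibniz]; rfl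
      e := e
      e_finite := ?_
      ord_D := ?_
      ord_D' := ?_
      const := fun x hx h => exists_const hN x hx h }, fun _ => rfl, fun _ => rfl⟩
  · intro x hx
    obtain ⟨S, h1, h2⟩ := hN.product_formula x
    simp only [deg_eq_one hN, Nat.cast_one, mul_one] at h2
    rw [finsum_eq_sum_of_support_subset _ (s := S)]
    · exact h2
    · intro v hv
      exact (h1 v).2 hv
  · refine ((hfin g1).union (hfin g2)).subset ?_
    intro v hv
    by_contra hcon
    simp only [Set.mem_union, Set.mem_ofPred_eq, not_or, not_not] at hcon
    apply hv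
    simp only [e]
    rw [hcon.1, hcon.2]
    simp
  · intro v x hx hDx
    refine ord_D_ge_gen v D (e v) ?_ x hx hDx
    intro y hy
    by_cases hDy : D y = 0
    · rw [hDy, map_zero]; exact zero_le
    · rw [val_le_exp_iff v _ hDy]
      exact hval v y hy hDy
  · intro v x hx hDx h0
    refine hval v x ?_ hDx
    exact (v.ord_nonneg_iff hx).1 h0

theorem exists_ord_eq_one (v : Place k K) : ∃ x : K, x ≠ 0 ∧ v.ord x = 1 := by
  obtain ⟨π, hπ0, hπ⟩ := v.exists_uniformizer
  refine ⟨π, hπ0, ?_⟩
  rw [Place.ord, hπ, WithZero.log_exp]
  norm_num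

end common

section char0

variable {k K : Type} [Field k] [Field K] [Algebra k K]

/-- In characteristic zero the kernel of a nonzero derivation consists of constants. -/
theorem const_of_deriv_eq_zero [IsAlgClosed k] [CharZero k] (hN : IsFunctionField k K)
    (D : Derivation k K K) (t : K) (hD : D t = 1) (x : K) (hx : D x = 0) :
    ∃ c : k, algebraMap k K c = x := by
  by_cases hxa : IsAlgebraic k x
  · have : IsIntegral k x := hxa.isIntegral
    haveI : FiniteDimensional k k⟮x⟯ := adjoin.finiteDimensional this
    obtain ⟨c, hc⟩ := (IsAlgClosed.algebraMap_bijective_of_isIntegral (k := k) (K := k⟮x⟯)).2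
      (⟨x, mem_adjoin_simple_self k x⟩)
    exact ⟨c, congrArg Subtype.val hc⟩
  · exfalso
    haveI := hN.finiteDimensional x hxa
    haveI : CharZero K := charZero_of_injective_algebraMap (algebraMap k K).injective
    haveI : CharZero k⟮x⟯ := charZero_of_injective_algebraMap (algebraMap k k⟮x⟯).injective
    haveI : Algebra.IsSeparable k⟮x⟯ K := inferInstance
    have h0 : ∀ y ∈ k⟮x⟯, D y = 0 := by
      intro y hy
      induction hy using IntermediateField.adjoin_induction with
      | mem z hz => rw [Set.mem_singleton_iff.1 hz, hx]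
      | algebraMap c => simp
      | add a b _ _ ha hb => rw [map_add, ha, hb, add_zero]
      | inv a _ ha => rw [Derivation.leibniz_inv, ha, smul_zero]
      | mul a b _ _ ha hb => rw [Derivation.leibniz, ha, hb, smul_zero, smul_zero, add_zero]
    let D' : Derivation k⟮x⟯ K K := Derivation.mk'
      { toFun := D
        map_add' := fun a b => map_add D a b
        map_smul' := by
          rintro ⟨y, hy⟩ b
          change D (y * b) = y * D b
          rw [Derivation.leibniz, h0 y hy, smul_zero, add_zero, smul_eq_mul] }
      (fun a b => by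
        change D (a * b) = _
        rw [Derivation.leibniz]
        rfl)
    have hDt : D' t = 1 := hD
    haveI : Algebra.FormallyEtale k⟮x⟯ K := Algebra.FormallyEtale.of_isSeparable _ _
    haveI : Algebra.FormallyUnramified k⟮x⟯ K := inferInstance
    haveI : Subsingleton (Ω[K⁄k⟮x⟯]) := inferInstance
    have h1 : D' = 0 := by
      have := (D'.liftKaehlerDifferential_comp)
      rw [← this]
      ext a
      have h2 : KaehlerDifferential.D k⟮x⟯ K a = 0 := Subsingleton.elim _ _
      simp [h2]
    rw [h1] at hDt
    simp at hDt

/-- **FF0**: place systems in characteristic zero. -/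
theorem exists_psys0 (k K : Type) [Field k] [IsAlgClosed k] [CharZero k] [Field K] [Algebra k K]
    (hfg : (⊤ : IntermediateField k K).FG)
    (htr : ∃ x : K, Transcendental k x ∧ Algebra.IsAlgebraic (IntermediateField.adjoin k {x}) K) :
    ∃ (V : Type) (P : PSys k K V), (∀ x, P.D x = 0 → ∃ c : k, algebraMap k K c = x) ∧
      (∀ v, ∃ x, x ≠ 0 ∧ (P.pl v).o x = 1) := by
  have hN : IsFunctionField k K := isFunctionField_of hfg htr
  obtain ⟨t, ht, halg⟩ := htr
  haveI : CharZero K := charZero_of_injective_algebraMap (algebraMap k K).injective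
  haveI : CharZero k⟮t⟯ := charZero_of_injective_algebraMap (algebraMap k k⟮t⟯).injective
  haveI : Algebra.IsAlgebraic k⟮t⟯ K := halg
  haveI : Algebra.IsSeparable k⟮t⟯ K := inferInstance
  obtain ⟨D, hD⟩ := exists_deriv t ht
  obtain ⟨P, hP1, hP2⟩ := exists_psys_aux hN t ht D hD
  refine ⟨Place k K, P, fun x hx => ?_, fun v => ?_⟩
  · rw [hP1] at hx
    exact const_of_deriv_eq_zero hN D t hD x hx
  · rw [hP2]
    exact exists_ord_eq_one v

end char0

/-- **FF0p**: place systems in characteristic `p`. -/
theorem exists_psysp (p : ℕ) [Fact p.Prime] (k K : Type) [Field k] [IsAlgClosed k] [CharP k p]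
    [Field K] [Algebra k K]
    (hfg : (⊤ : IntermediateField k K).FG)
    (htr : ∃ x : K, Transcendental k x ∧ Algebra.IsAlgebraic (IntermediateField.adjoin k {x}) K) :
    ∃ (V : Type) (P : PSys k K V), (∀ x, P.D x = 0 → ∃ y : K, y ^ p = x) ∧
      (∀ v, ∃ x, x ≠ 0 ∧ (P.pl v).o x = 1) := by
  classical
  have hN : IsFunctionField k K := isFunctionField_of hfg htr
  haveI := hN.1
  haveI : CharP K p := charP_of_injective_algebraMap (algebraMap k K).injective p
  obtain ⟨S, hS1, hS2⟩ := exists_isTranscendenceBasis_and_isSeparable_of_perfectField k K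
  have hcard : S.card = 1 := by
    have h3 := hS1.lift_cardinalMk_eq_trdeg
    rw [hN.2] at h3
    simpa using h3
  obtain ⟨t, rfl⟩ := Finset.card_eq_one.1 hcard
  have ht : Transcendental k t := by
    have := hS1.1
    have h2 := this.transcendental ⟨t, by simp⟩
    exact h2
  haveI : Algebra.IsSeparable k⟮t⟯ K := by
    rw [Finset.coe_singleton] at hS2
    exact hS2
  obtain ⟨D, hD⟩ := exists_deriv t ht
  obtain ⟨P, hP1, hP2⟩ := exists_psys_aux hN t ht D hD
  refine ⟨Place k K, P, fun x hx => ?_, fun v => ?_⟩
  · rw [hP1] at hx
    exact exists_pow_of_deriv_eq_zero p t D hD x hx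
  · rw [hP2]
    exact exists_ord_eq_one v

end Pool.Agent.Helper45.FF
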