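import Mathlib

/-!
# Bessel series used in the value of `I(α)` (problem MP_1b8a6f_an)
-/

set_option autoImplicit false

namespace Pool.Agent.Helper45.Bern

/-- `besselSeries p y = ∑ₘ (-y)^m / (m! (m+p)!)`, so that
`J_p(x) = (x/2)^p * besselSeries p (x²/4)` is the Bessel function of order `p`. -/
noncomputable def besselSeries (p : ℕ) (y : ℝ) : ℝ :=
  ∑' m : ℕ, (-y) ^ m / ((m.factorial : ℝ) * ((m + p).factorial : ℝ))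

/-- `bernPsi α c = ∫₀¹ (1-ξ)^α J₀(c √(1-ξ²)) dξ`. -/
noncomputable def bernPsi (α c : ℝ) : ℝ :=
  ∫ ξ in (0 : ℝ)..1, (1 - ξ) ^ α * besselSeries 0 (c ^ 2 * (1 - ξ ^ 2) / 4)

/-- `bernG α c = ∫₀¹ (1-ξ)^α * c J₁(c √(1-ξ²)) / √(1-ξ²) dξ`. -/
noncomputable def bernG (α c : ℝ) : ℝ :=
  ∫ ξ in (0 : ℝ)..1, (1 - ξ) ^ α * (c ^ 2 / 2 * besselSeries 1 (c ^ 2 * (1 - ξ ^ 2) / 4))

end Pool.Agent.Helper45.Bern
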