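import Mathlib

/-!
# The quantity `I(α)` of problem MP_1b8a6f_an

`I(α)` is the infimum of the total variations of the complex Borel measures `μ` on `ℝ` whose
Fourier-Stieltjes transform agrees with `(1 - |ξ|) ^ α` on `[-1, 1]`.
-/

set_option autoImplicit false

open MeasureTheory

namespace Pool.Agent.Helper45.Bern

/-- The Fourier-Stieltjes transform `ξ ↦ ∫ exp (-i x ξ) dμ(x)` of a complex measure on `ℝ`. -/
noncomputable def fourierStieltjes (μ : ComplexMeasure ℝ) (ξ : ℝ) : ℂ :=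
  VectorMeasure.integral μ (fun x : ℝ => Complex.exp (-(Complex.I * ((x * ξ : ℝ) : ℂ))))
    (ContinuousLinearMap.mul ℝ ℂ)

/-- The total variation norm of a complex measure on `ℝ`. -/
noncomputable def totalVar (μ : ComplexMeasure ℝ) : ℝ :=
  (μ.variation Set.univ).toReal

/-- The transform of `μ` equals `(1 - |ξ|) ^ α` on `[-1, 1]`. -/
def Admissible (α : ℝ) (μ : ComplexMeasure ℝ) : Prop :=
  ∀ ξ : ℝ, |ξ| ≤ 1 → fourierStieltjes μ ξ = (((1 - |ξ|) ^ α : ℝ) : ℂ)

/-- The quantity `I(α)`. -/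
noncomputable def bernsteinNorm (α : ℝ) : ℝ :=
  sInf {r : ℝ | ∃ μ : ComplexMeasure ℝ, Admissible α μ ∧ r = totalVar μ}

end Pool.Agent.Helper45.Bern
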