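import Pool.Agent.Helper52.Inv.Poly

set_option autoImplicit false

/-!
# Independence modulo `p` of the polynomials of the normal monomials
-/

namespace Pool.Agent.Helper45.InvINDEP

open Pool.Agent.Helper52.Inv Pool.Agent.Helper52.Inv.ZG MvPolynomial

variable {K : Type*} [Field K]

/-- the top coefficient (in degree `d`) of `f` is a nonzero multiple of the monomial `s`. -/
def Lead (f : BR K) (d : ℕ) (s : Fin 4 →₀ ℕ) : Prop :=
  f.natDegree ≤ d ∧ ∃ u : K, u ≠ 0 ∧ f.coeff d = monomial s u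

theorem Lead.mul {f g : BR K} {d d' : ℕ} {s s' : Fin 4 →₀ ℕ} (hf : Lead f d s) (hg : Lead g d' s') :
    Lead (f * g) (d + d') (s + s') := by
  obtain ⟨h1, u, hu, h2⟩ := hf
  obtain ⟨h1', u', hu', h2'⟩ := hg
  refine ⟨Polynomial.natDegree_mul_le.trans (add_le_add h1 h1'), u * u', mul_ne_zero hu hu', ?_⟩
  rw [Polynomial.coeff_mul_add_eq_of_natDegree_le h1 h1', h2, h2', monomial_mul]

theorem Lead.one : Lead (1 : BR K) 0 0 := by
  refine ⟨by simp, 1, one_ne_zero, ?_⟩
  rw [Polynomial.coeff_one_zero]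
  rfl

theorem Lead.pow {f : BR K} {d : ℕ} {s : Fin 4 →₀ ℕ} (hf : Lead f d s) (n : ℕ) :
    Lead (f ^ n) (n * d) (n • s) := by
  induction n with
  | zero => simpa using Lead.one
  | succ n ih =>
    rw [pow_succ, add_mul, one_mul, add_smul, one_smul]
    exact ih.mul hf

theorem Lead.congr {f : BR K} {d d' : ℕ} {s s' : Fin 4 →₀ ℕ} (hf : Lead f d s) (h : d = d')
    (h' : s = s') : Lead f d' s' := by subst h; subst h'; exact hf

theorem Lead.CC {a : K} (ha : a ≠ 0) : Lead (Polynomial.C (C a) : BR K) 0 0 := by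
  refine ⟨by simp, a, ha, ?_⟩
  rw [Polynomial.coeff_C_zero, MvPolynomial.C_apply]

theorem Lead.CX (i : Fin 4) : Lead (Polynomial.C (X i) : BR K) 0 (Finsupp.single i 1) := by
  refine ⟨by simp, 1, one_ne_zero, ?_⟩
  rw [Polynomial.coeff_C_zero]
  rfl

theorem Lead.vr : Lead (vr K) 1 0 := by
  refine ⟨by simp [Pool.Agent.Helper52.Inv.vr], 1, one_ne_zero, ?_⟩
  simp [Pool.Agent.Helper52.Inv.vr]

section two

variable (h2 : (2 : K) ≠ 0)

include h2

theorem Lead.two : Lead (2 : BR K) 0 0 := by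
  have : (2 : BR K) = Polynomial.C (C 2) := by
    rw [map_ofNat, map_ofNat]
  rw [this]; exact Lead.CC h2

theorem Lead.four : Lead (4 : BR K) 0 0 := by
  have h4 : (4 : K) ≠ 0 := by
    rw [show (4 : K) = 2 * 2 by norm_num]; exact mul_ne_zero h2 h2
  have : (4 : BR K) = Polynomial.C (C 4) := by
    rw [map_ofNat, map_ofNat]
  rw [this]; exact Lead.CC h4

theorem Lead.neg16 : Lead (-16 : BR K) 0 0 := by
  have h4 : (-16 : K) ≠ 0 := by
    rw [show (-16 : K) = - (2 * 2 * 2 * 2) by norm_num]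
    exact neg_ne_zero.2 (mul_ne_zero (mul_ne_zero (mul_ne_zero h2 h2) h2) h2)
  have : (-16 : BR K) = Polynomial.C (C (-16)) := by
    rw [map_neg, map_neg, map_ofNat, map_ofNat]
  rw [this]; exact Lead.CC h4

theorem Lead.neg8 : Lead (-8 : BR K) 0 0 := by
  have h4 : (-8 : K) ≠ 0 := by
    rw [show (-8 : K) = - (2 * 2 * 2) by norm_num]
    exact neg_ne_zero.2 (mul_ne_zero (mul_ne_zero h2 h2) h2)
  have : (-8 : BR K) = Polynomial.C (C (-8)) := by
    rw [map_neg, map_neg, map_ofNat, map_ofNat]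
  rw [this]; exact Lead.CC h4

omit h2 in
theorem Lead.vq : Lead (vq K) 2 (Finsupp.single 2 1) := by
  refine ⟨?_, -1, neg_ne_zero.2 one_ne_zero, ?_⟩
  · unfold Pool.Agent.Helper52.Inv.vq Pool.Agent.Helper52.Inv.vr vk vb
    compute_degree
  · unfold Pool.Agent.Helper52.Inv.vq Pool.Agent.Helper52.Inv.vr vk vb
    rw [Polynomial.coeff_sub, Polynomial.coeff_mul_C, Polynomial.coeff_mul_C,
      Polynomial.coeff_X_pow, Polynomial.coeff_X]
    simp only [MvPolynomial.X]
    norm_num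

theorem Lead.kq : Lead (vk K - 2 * Pool.Agent.Helper52.Inv.vr K * vb K) 1 (Finsupp.single 2 1) := by
  refine ⟨?_, -2, neg_ne_zero.2 h2, ?_⟩
  · unfold Pool.Agent.Helper52.Inv.vr vk vb
    compute_degree
  · unfold Pool.Agent.Helper52.Inv.vr vk vb
    rw [show (2 : BR K) = Polynomial.C 2 by rw [map_ofNat], Polynomial.coeff_sub, Polynomial.coeff_mul_C,
      Polynomial.coeff_C_mul, Polynomial.coeff_X, Polynomial.coeff_C]
    simp only [MvPolynomial.X]
    norm_num
    rw [show (2 : MvPolynomial (Fin 4) K) = C 2 by rw [map_ofNat], C_mul_monomial, mul_one]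

end two

/-- degree in `ρ` -/
def dg : VI → ℕ
  | VI.n1 i => i
  | VI.n2 _ _ g i => 2 * g.2.2 + i
  | VI.n3 _ g i => 2 * g.2.2 + i
  | VI.n4 g i => 2 * g.2.2 + i + 1

/-- exponent of the top coefficient -/
noncomputable def ex : VI → Fin 4 →₀ ℕ
  | VI.n1 _ => 0
  | VI.n2 a b g _ => Finsupp.single 0 (a + 1) + Finsupp.single 1 b +
      Finsupp.single 2 (g.1 + g.2.2) + Finsupp.single 3 g.2.1
  | VI.n3 b g _ => Finsupp.single 1 (b + 1) +
      Finsupp.single 2 (g.1 + g.2.2) + Finsupp.single 3 g.2.1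
  | VI.n4 g _ => Finsupp.single 2 (g.1 + g.2.2 + 1) + Finsupp.single 3 g.2.1

theorem dg_ex_inj {v w : VI} (h1 : dg v = dg w) (h2 : ex v = ex w) : v = w := by
  have e0 := DFunLike.congr_fun h2 0
  have e1 := DFunLike.congr_fun h2 1
  have e2 := DFunLike.congr_fun h2 2
  have e3 := DFunLike.congr_fun h2 3
  rcases v with i | ⟨a, b, ⟨g1, g2, g3⟩, i⟩ | ⟨b, ⟨g1, g2, g3⟩, i⟩ | ⟨⟨g1, g2, g3⟩, i⟩ <;>
  rcases w with i' | ⟨a', b', ⟨g1', g2', g3'⟩, i'⟩ | ⟨b', ⟨g1', g2', g3'⟩, i'⟩ | ⟨⟨g1', g2', g3'⟩, i'⟩ <;>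
  simp [dg, ex] at h1 e0 e1 e2 e3 <;>
  (have hi := i.isLt; have hi' := i'.isLt; simp only [VI.n1.injEq, VI.n2.injEq, VI.n3.injEq, VI.n4.injEq, Prod.mk.injEq, Fin.ext_iff]; omega)

theorem al_lead (h2 : (2 : K) ≠ 0) (v : VI) : Lead (al K v) (dg v) (ex v) := by
  have L2 := Lead.two h2
  have hP : ∀ g : ℕ × ℕ × ℕ, Lead (Pg K g) (2 * g.2.2)
      (Finsupp.single 2 (g.1 + g.2.2) + Finsupp.single 3 g.2.1) := by
    intro g
    unfold Pg
    have h := ((((Lead.neg16 h2).mul (Lead.CX 2)).pow g.1).mul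
      (((Lead.neg8 h2).mul (Lead.CX 3)).pow g.2.1)).mul
      (((Lead.neg16 h2).mul Lead.vq).pow g.2.2)
    refine h.congr (by ring) ?_
    ext j
    fin_cases j <;> simp
  have hy0 : Lead (vy0 K) 0 (Finsupp.single 0 1) := Lead.CX 0
  have hy1 : Lead (vy1 K) 0 (Finsupp.single 1 1) := Lead.CX 1
  have hr : ∀ i : Fin 2, Lead (2 * Pool.Agent.Helper52.Inv.vr K ^ (i : ℕ)) i 0 := by
    intro i
    exact (L2.mul (Lead.vr.pow i)).congr (by simp) (by simp)
  rcases v with i | ⟨a, b, g, i⟩ | ⟨b, g, i⟩ | ⟨g, i⟩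
  · exact hr i
  · have h := ((((L2.mul hy0).pow a).mul ((L2.mul hy1).pow b)).mul (L2.mul ((hP g).mul hy0))).mul (hr i)
    refine h.congr (by simp [dg]) ?_
    ext j
    fin_cases j <;> simp [ex]
  · have h := (((L2.mul hy1).pow b).mul (L2.mul ((hP g).mul hy1))).mul (hr i)
    refine h.congr (by simp [dg]) ?_
    ext j
    fin_cases j <;> simp [ex]
  · have h := (L2.mul ((hP g).mul ((Lead.four h2).mul (Lead.kq h2)))).mul (hr i)
    refine h.congr (by simp [dg]; ring) ?_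
    ext j
    fin_cases j <;> simp [ex]

theorem al_indep (h2 : (2 : K) ≠ 0) (s : Finset VI) (c : VI → K)
    (h : ∑ v ∈ s, (C (c v) : MvPolynomial (Fin 4) K) • al K v = 0) : ∀ v ∈ s, c v = 0 := by
  classical
  by_contra hne
  push Not at hne
  obtain ⟨w, hw, hcw⟩ := hne
  obtain ⟨v0, hv0, hmax⟩ := (s.filter (fun v => c v ≠ 0)).exists_max_image dg
    ⟨w, Finset.mem_filter.2 ⟨hw, hcw⟩⟩
  rw [Finset.mem_filter] at hv0
  obtain ⟨-, u, hu, hu2⟩ := al_lead h2 v0
  have h1 := congrArg (fun f : BR K => coeff (ex v0) (f.coeff (dg v0))) h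
  simp only [Polynomial.finsetSum_coeff, Polynomial.coeff_smul, Polynomial.coeff_zero,
    coeff_zero, coeff_sum, smul_eq_mul, coeff_C_mul] at h1
  rw [Finset.sum_eq_single v0] at h1
  · rw [hu2, coeff_monomial, if_pos rfl] at h1
    exact (mul_ne_zero hv0.2 hu) h1
  · intro v hv hvne
    by_cases hcv : c v = 0
    · rw [hcv, zero_mul]
    · obtain ⟨hd, u', hu', hu2'⟩ := al_lead h2 v
      have hle := hmax v (Finset.mem_filter.2 ⟨hv, hcv⟩)
      rcases hle.lt_or_eq with hlt | heq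
      · rw [Polynomial.coeff_eq_zero_of_natDegree_lt (hd.trans_lt hlt), coeff_zero, mul_zero]
      · rw [← heq, hu2', coeff_monomial, if_neg, mul_zero]
        intro hex
        exact hvne (dg_ex_inj heq hex)
  · intro hv
    exact absurd hv0.1 hv

/-- reduction of the polynomials -/
theorem map_al (p : ℕ) (v : VI) :
    Polynomial.map (MvPolynomial.map (Int.castRingHom (ZMod p))) (al ℤ v) = al (ZMod p) v := by
  rcases v with i | ⟨a, b, g, i⟩ | ⟨b, g, i⟩ | ⟨g, i⟩ <;>
  simp [al, Pg, vy0, vy1, vb, vk, Pool.Agent.Helper52.Inv.vr, Pool.Agent.Helper52.Inv.vq]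

theorem indep (p : ℕ) (hp : p.Prime) (h2 : 2 < p) (e : ℕ) (c : VI →₀ ℤ)
    (h : ∃ w : BR ℤ, (c.sum fun v n => n • al ℤ v) = (p : BR ℤ) ^ e * w) :
    ∀ v, (p : ℤ) ^ e ∣ c v := by
  have : Fact p.Prime := ⟨hp⟩
  have h2' : (2 : ZMod p) ≠ 0 := by
    intro h0
    have : ((2 : ℕ) : ZMod p) = 0 := by exact_mod_cast h0
    rw [ZMod.natCast_eq_zero_iff] at this
    exact absurd (Nat.le_of_dvd (by norm_num) this) (by omega)
  induction e generalizing c with
  | zero => intro v; simp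
  | succ e ih =>
    obtain ⟨w, hw⟩ := h
    have hmod : ∀ v, (p : ℤ) ∣ c v := by
      have h1 := congrArg (Polynomial.map (MvPolynomial.map (Int.castRingHom (ZMod p)))) hw
      rw [Polynomial.map_mul, Polynomial.map_pow, Polynomial.map_natCast,
        show ((p : ℕ) : BR (ZMod p)) = 0 by
          rw [← Polynomial.C_eq_natCast, ← MvPolynomial.C_eq_coe_nat, ZMod.natCast_self]; simp,
        zero_pow (Nat.succ_ne_zero e), zero_mul, Finsupp.sum, Polynomial.map_sum] at h1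
      have h3 := al_indep h2' c.support (fun v => ((c v : ℤ) : ZMod p)) (by
        rw [← h1]
        apply Finset.sum_congr rfl
        intro v _
        rw [zsmul_eq_mul, Polynomial.map_mul, map_al, Polynomial.map_intCast,
          Polynomial.smul_eq_C_mul]
        congr 1)
      intro v
      by_cases hv : v ∈ c.support
      · exact (ZMod.intCast_zmod_eq_zero_iff_dvd _ _).1 (h3 v hv)
      · rw [Finsupp.notMem_support_iff.1 hv]; exact dvd_zero _
    choose d hd using hmod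
    have hp0 : (p : ℤ) ≠ 0 := by exact_mod_cast hp.ne_zero
    set c' : VI →₀ ℤ := Finsupp.onFinset c.support d (by
      intro v hv
      rw [Finsupp.mem_support_iff, hd v]
      exact mul_ne_zero hp0 hv) with hc'
    have hcc : c = (p : ℤ) • c' := by
      ext v
      rw [Finsupp.smul_apply, hc', Finsupp.onFinset_apply, smul_eq_mul]
      exact hd v
    have hsum : (c.sum fun v n => n • al ℤ v) = (p : BR ℤ) * (c'.sum fun v n => n • al ℤ v) := by
      rw [hcc, Finsupp.sum_smul_index (by intro v; simp), Finsupp.mul_sum]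
      apply Finsupp.sum_congr
      intro v _
      rw [mul_smul, zsmul_eq_mul, Int.cast_natCast]
    rw [hsum, pow_succ', mul_assoc] at hw
    have hpB : (p : BR ℤ) ≠ 0 := by
      exact_mod_cast hp.ne_zero
    have h4 := mul_left_cancel₀ hpB hw
    intro v
    have h5 := ih c' ⟨w, h4⟩ v
    rw [hcc, Finsupp.smul_apply, smul_eq_mul, pow_succ']
    exact mul_dvd_mul_left _ h5

end Pool.Agent.Helper45.InvINDEP
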