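import Pool.Agent.Helper45.FFChar0

/-!
# The place system of `d/dt` with exact error terms (characteristic zero)
-/

set_option autoImplicit false
set_option linter.style.haveILetI false

namespace Pool.Agent.Helper45.S4

open Polynomial IntermediateField Pool.Agent.Helper16 Pool.Agent.Helper33 Pool.Agent.Helper45.FF

variable {k L : Type} [Field k] [Field L] [Algebra k L]

/-- The residue field of a place is `k`. -/
theorem exists_res_val [IsAlgClosed k] (hN : IsFunctionField k L) (v : Place k L) (x : L)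
    (hx : v.val x ≤ 1) : ∃ c : k, v.val (x - algebraMap k L c) < 1 := by
  haveI := v.finite_resField hN
  have h1 : Function.Bijective (algebraMap k v.resField) :=
    IsAlgClosed.algebraMap_bijective_of_isIntegral
  have hx' : x ∈ v.ring := hx
  obtain ⟨c, hc⟩ := h1.2 (v.res x)
  refine ⟨c, ?_⟩
  have hc' : algebraMap k L c ∈ v.ring := v.ring.algebraMap_mem c
  rw [← v.res_eq_zero_iff (sub_mem hx' hc'), v.res_sub hx' hc', v.res_algebraMap, hc, sub_self]

theorem exists_res [IsAlgClosed k] (hN : IsFunctionField k L) (v : Place k L) (x : L)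
    (hx : 0 ≤ v.ord x) : ∃ c : k, x = algebraMap k L c ∨ 1 ≤ v.ord (x - algebraMap k L c) := by
  by_cases hx0 : x = 0
  · exact ⟨0, Or.inl (by rw [hx0, map_zero])⟩
  · obtain ⟨c, hc⟩ := exists_res_val hN v x ((v.ord_nonneg_iff hx0).1 hx)
    refine ⟨c, ?_⟩
    by_cases h : x = algebraMap k L c
    · exact Or.inl h
    · right
      exact (v.ord_pos_iff (sub_ne_zero.2 h)).2 hc

theorem res_unique (v : Place k L) (x : L) (c c' : k) (h : v.val (x - algebraMap k L c) < 1)
    (h' : v.val (x - algebraMap k L c') < 1) : c = c' := by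
  by_contra hne
  have h1 : v.val (algebraMap k L (c' - c)) = 1 := v.triv _ (sub_ne_zero.2 (Ne.symm hne))
  have h2 : algebraMap k L (c' - c) = (x - algebraMap k L c) - (x - algebraMap k L c') := by
    rw [map_sub]; ring
  have h3 : v.val (algebraMap k L (c' - c)) < 1 := by
    rw [h2]
    exact lt_of_le_of_lt (v.val.map_sub _ _) (max_lt h h')
  exact absurd h1 h3.ne

section der

variable (v : Place k L) (D : Derivation k L L)

theorem val_exp_lt_iff (x : L) (hx : x ≠ 0) (n : ℤ) : WithZero.exp n < v.val x ↔ v.ord x < -n := by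
  rw [← not_le, val_le_exp_iff v x hx, not_le]

/-- iterated estimate -/
theorem val_D_le_max [IsAlgClosed k] (hN : IsFunctionField k L) (B : ℤ)
    (hB : ∀ x, v.val x ≤ 1 → v.val (D x) ≤ WithZero.exp B) (π : L)
    (hπ : v.val π = WithZero.exp (-1 : ℤ)) (n : ℕ) :
    ∀ x, v.val x ≤ 1 → v.val (D x) ≤ max (v.val (D π)) (WithZero.exp (B - n)) := by
  have hπ0 : π ≠ 0 := by
    rintro rfl
    rw [map_zero] at hπ
    exact WithZero.exp_ne_zero hπ.symm
  induction n with
  | zero =>
    intro x hx
    refine (hB x hx).trans (le_max_of_le_right ?_)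
    simp
  | succ n ih =>
    intro x hx
    obtain ⟨c, hc⟩ := exists_res_val hN v x hx
    set y := (x - algebraMap k L c) * π⁻¹ with hy
    have hxy : x = algebraMap k L c + π * y := by
      rw [hy]; field_simp; ring
    have hy1 : v.val y ≤ 1 := by
      rw [hy, map_mul, map_inv₀, hπ]
      by_cases h0 : x - algebraMap k L c = 0
      · rw [h0, map_zero, zero_mul]; exact zero_le
      · have h1 := (v.ord_pos_iff h0).2 hc
        have h2 : v.val (x - algebraMap k L c) ≤ WithZero.exp (-1 : ℤ) := by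
          rw [val_le_exp_iff v _ h0]; omega
        calc v.val (x - algebraMap k L c) * (WithZero.exp (-1 : ℤ))⁻¹
            ≤ WithZero.exp (-1 : ℤ) * (WithZero.exp (-1 : ℤ))⁻¹ := mul_le_mul_left h2 _
          _ = 1 := mul_inv_cancel₀ WithZero.exp_ne_zero
    have hD : D x = π * D y + y * D π := by
      conv_lhs => rw [hxy]
      rw [map_add, Derivation.map_algebraMap, zero_add, Derivation.leibniz, smul_eq_mul, smul_eq_mul]
    rw [hD]
    refine (v.val.map_add _ _).trans (max_le ?_ ?_)
    · rw [map_mul, hπ]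
      rcases le_max_iff.1 (ih y hy1) with h | h
      · refine le_max_of_le_left ?_
        calc WithZero.exp (-1 : ℤ) * v.val (D y) ≤ 1 * v.val (D y) :=
              mul_le_mul_left exp_neg_one_lt.le _
          _ ≤ v.val (D π) := by rw [one_mul]; exact h
      · refine le_max_of_le_right ?_
        calc WithZero.exp (-1 : ℤ) * v.val (D y) ≤ WithZero.exp (-1 : ℤ) * WithZero.exp (B - n) :=
              mul_le_mul_right h _
          _ = WithZero.exp (B - (n + 1 : ℕ)) := by
              rw [← WithZero.exp_add]; congr 1; push_cast; ring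
    · refine le_max_of_le_left ?_
      rw [map_mul]
      calc v.val y * v.val (D π) ≤ 1 * v.val (D π) := mul_le_mul_left hy1 _
        _ = v.val (D π) := one_mul _

theorem val_D_le_pi [IsAlgClosed k] (hN : IsFunctionField k L) (B : ℤ)
    (hB : ∀ x, v.val x ≤ 1 → v.val (D x) ≤ WithZero.exp B) (π : L)
    (hπ : v.val π = WithZero.exp (-1 : ℤ)) (x : L) (hx : v.val x ≤ 1) :
    v.val (D x) ≤ v.val (D π) := by
  by_contra hlt
  rw [not_le] at hlt
  have hDx : D x ≠ 0 := by
    intro h0
    rw [h0, map_zero] at hlt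
    exact absurd hlt (not_lt.2 zero_le)
  have h1 : ∀ n : ℕ, v.val (D x) ≤ WithZero.exp (B - n) := by
    intro n
    rcases le_max_iff.1 (val_D_le_max v D hN B hB π hπ n x hx) with h | h
    · exact absurd h (not_le.2 hlt)
    · exact h
  have h2 := h1 (B + v.ord (D x) + 1).toNat
  rw [val_le_exp_iff v _ hDx] at h2
  have h3 := Int.self_le_toNat (B + v.ord (D x) + 1)
  omega

/-- value of `D s` -/
theorem val_D_eq [IsAlgClosed k] [CharZero k] (hN : IsFunctionField k L) (B : ℤ)
    (hB : ∀ x, v.val x ≤ 1 → v.val (D x) ≤ WithZero.exp B) (π : L)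
    (hπ : v.val π = WithZero.exp (-1 : ℤ)) (s : L) (hs0 : s ≠ 0) (hs : 0 < v.ord s) (hDs : D s ≠ 0) :
    v.val (D s) = WithZero.exp (-(v.ord s - 1)) * v.val (D π) := by
  haveI : CharZero L := charZero_of_injective_algebraMap (algebraMap k L).injective
  have hπ0 : π ≠ 0 := by
    rintro rfl
    rw [map_zero] at hπ
    exact WithZero.exp_ne_zero hπ.symm
  obtain ⟨m, hm⟩ : ∃ m : ℕ, v.ord s = m + 1 := ⟨(v.ord s - 1).toNat, by omega⟩
  have hsv : v.val s = WithZero.exp (-((m : ℤ) + 1)) := by
    have h0 : v.val s ≠ 0 := by simpa using hs0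
    rw [← hm, Place.ord, neg_neg, WithZero.exp_log h0]
  set u := s * (π ^ (m + 1))⁻¹ with hu
  have hsu : s = π ^ (m + 1) * u := by
    rw [hu]; field_simp
  have hvu : v.val u = 1 := by
    rw [hu, map_mul, map_inv₀, map_pow, hπ, hsv, ← WithZero.exp_nsmul, ← WithZero.exp_neg,
      ← WithZero.exp_add]
    simp
  have hDπ0 : D π ≠ 0 := by
    intro h0
    have h1 := val_D_le_pi v D hN B hB π hπ s ((v.ord_nonneg_iff hs0).1 hs.le)
    rw [h0, map_zero] at h1
    have h2 : v.val (D s) = 0 := le_antisymm h1 zero_le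
    exact hDs (by simpa using h2)
  have hDπv : v.val (D π) ≠ 0 := by simpa using hDπ0
  have hD : D s = ((m + 1 : ℕ) : L) * π ^ m * u * D π + π ^ (m + 1) * D u := by
    conv_lhs => rw [hsu]
    rw [Derivation.leibniz, Derivation.leibniz_pow]
    simp only [smul_eq_mul, nsmul_eq_mul, Nat.add_sub_cancel]
    ring
  have hcast : v.val ((m + 1 : ℕ) : L) = 1 := by
    have := v.triv ((m + 1 : ℕ) : k) (by exact_mod_cast Nat.succ_ne_zero m)
    rwa [map_natCast] at this
  have h1 : v.val (((m + 1 : ℕ) : L) * π ^ m * u * D π) = WithZero.exp (-(m : ℤ)) * v.val (D π) := by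
    rw [map_mul, map_mul, map_mul, hcast, hvu, map_pow, hπ, one_mul, mul_one, ← WithZero.exp_nsmul]
    congr 2
    simp
  have h2 : v.val (π ^ (m + 1) * D u) < v.val (((m + 1 : ℕ) : L) * π ^ m * u * D π) := by
    rw [h1, map_mul, map_pow, hπ, ← WithZero.exp_nsmul]
    have h3 := val_D_le_pi v D hN B hB π hπ u hvu.le
    calc WithZero.exp ((m + 1) • (-1 : ℤ)) * v.val (D u)
        ≤ WithZero.exp ((m + 1) • (-1 : ℤ)) * v.val (D π) := mul_le_mul_right h3 _
      _ < WithZero.exp (-(m : ℤ)) * v.val (D π) := by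
          refine mul_lt_mul_of_pos_right ?_ (zero_lt_iff.2 hDπv)
          rw [WithZero.exp_lt_exp]
          simp
  rw [hD, Valuation.map_add_eq_of_lt_left _ h2, h1, hm]
  congr 2
  ring

end der

/-- **S4 (a)**: the place system of `d/dt` with exact error terms. -/
theorem exists_psys_t [IsAlgClosed k] [CharZero k] (hN : IsFunctionField k L) (t : L)
    (ht : Transcendental k t) :
    ∃ P : PSys k L (Place k L), (∀ v, P.pl v = plDV v) ∧ P.D t = 1 ∧
      (∀ x, P.D x = 0 → ∃ c : k, algebraMap k L c = x) ∧ (∀ v, v.ord t < 0 → P.e v = 0) ∧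
      (∀ v (c : k), 0 < v.ord (t - algebraMap k L c) →
        (P.e v : ℤ) + 1 = v.ord (t - algebraMap k L c)) := by
  classical
  haveI : CharZero L := charZero_of_injective_algebraMap (algebraMap k L).injective
  haveI := hN.finiteDimensional t ht
  haveI : CharZero k⟮t⟯ := charZero_of_injective_algebraMap (algebraMap k k⟮t⟯).injective
  haveI : Algebra.IsSeparable k⟮t⟯ L := inferInstance
  obtain ⟨D, hD⟩ := exists_deriv t ht
  obtain ⟨P0, hP1, hP2⟩ := exists_psys_aux hN t ht D hD
  have ht0 : t ≠ 0 := transcendental_ne_zero ht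
  -- the bound from `P0`
  have hB : ∀ v : Place k L, ∀ x, v.val x ≤ 1 → v.val (D x) ≤ WithZero.exp (P0.e v : ℤ) := by
    intro v x hx
    by_cases hDx : D x = 0
    · rw [hDx, map_zero]; exact zero_le
    · have hx0 : x ≠ 0 := by rintro rfl; exact hDx (map_zero D)
      rw [val_le_exp_iff v _ hDx]
      have := P0.ord_D' v x hx0 (by rw [hP1]; exact hDx) (by
        rw [hP2]; exact (v.ord_nonneg_iff hx0).2 hx)
      rw [hP1, hP2] at this
      exact this
  let e : Place k L → ℕ := fun v =>
    if h : ∃ c : k, v.val (t - algebraMap k L c) < 1 then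
      (v.ord (t - algebraMap k L h.choose)).toNat - 1 else 0
  have hne : ∀ c : k, t - algebraMap k L c ≠ 0 := by
    intro c h
    apply ht
    rw [sub_eq_zero.1 h]
    exact isAlgebraic_algebraMap c
  have he1 : ∀ v (c : k), 0 < v.ord (t - algebraMap k L c) →
        (e v : ℤ) + 1 = v.ord (t - algebraMap k L c) := by
    intro v c hc
    have hc' : v.val (t - algebraMap k L c) < 1 := (v.ord_pos_iff (hne c)).1 hc
    have hex : ∃ c : k, v.val (t - algebraMap k L c) < 1 := ⟨c, hc'⟩
    have heq : hex.choose = c := res_unique v t _ _ hex.choose_spec hc'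
    simp only [e, dif_pos hex, heq]
    omega
  have he0 : ∀ v, v.ord t < 0 → e v = 0 := by
    intro v hv
    have hnex : ¬ ∃ c : k, v.val (t - algebraMap k L c) < 1 := by
      rintro ⟨c, hc⟩
      have h1 : 1 < v.val t := (v.ord_neg_iff ht0).1 hv
      have h2 : t = (t - algebraMap k L c) + algebraMap k L c := by ring
      have h3 : v.val t ≤ 1 := by
        rw [h2]
        exact (v.val.map_add _ _).trans (max_le hc.le (v.val_algebraMap_le c))
      exact absurd h1 (not_lt.2 h3)
    simp only [e, dif_neg hnex]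
  -- main estimate
  have hmain : ∀ v : Place k L, (∀ x, v.val x ≤ 1 → v.val (D x) ≤ WithZero.exp (e v : ℤ)) ∧
      e v ≤ P0.e v := by
    intro v
    obtain ⟨π, hπ0, hπ⟩ := v.exists_uniformizer
    by_cases hvt : 0 ≤ v.ord t
    · obtain ⟨c, hc⟩ := exists_res_val hN v t ((v.ord_nonneg_iff ht0).1 hvt)
      have hcpos : 0 < v.ord (t - algebraMap k L c) := (v.ord_pos_iff (hne c)).2 hc
      have hDs : D (t - algebraMap k L c) = 1 := by
        rw [map_sub, Derivation.map_algebraMap, sub_zero, hD]
      have h1 := val_D_eq v D hN _ (hB v) π hπ _ (hne c) hcpos (by rw [hDs]; exact one_ne_zero)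
      rw [hDs, map_one, ← he1 v c hcpos, add_sub_cancel_right] at h1
      have h2 : v.val (D π) = WithZero.exp (e v : ℤ) := by
        have h3 : WithZero.exp (e v : ℤ) * (WithZero.exp (-(e v : ℤ)) * v.val (D π)) =
            WithZero.exp (e v : ℤ) := by rw [← h1, mul_one]
        rw [← mul_assoc, ← WithZero.exp_add, add_neg_cancel, WithZero.exp_zero, one_mul] at h3
        exact h3
      refine ⟨fun x hx => ?_, ?_⟩
      · rw [← h2]
        exact val_D_le_pi v D hN _ (hB v) π hπ x hx
      · have h4 := hB v π (by rw [hπ]; exact exp_neg_one_lt.le)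
        rw [h2, WithZero.exp_le_exp] at h4
        exact_mod_cast h4
    · rw [not_le] at hvt
      rw [he0 v hvt]
      refine ⟨fun x hx => ?_, Nat.zero_le _⟩
      have hs0 : t⁻¹ ≠ 0 := inv_ne_zero ht0
      have hspos : 0 < v.ord t⁻¹ := by rw [v.ord_inv]; omega
      have hDs : D t⁻¹ = -(t⁻¹ ^ 2) := by
        rw [Derivation.leibniz_inv, hD, smul_eq_mul, mul_one]
      have h1 := val_D_eq v D hN _ (hB v) π hπ _ hs0 hspos (by
        rw [hDs]; exact neg_ne_zero.2 (pow_ne_zero 2 hs0))
      have hsv : v.val t⁻¹ = WithZero.exp (-(v.ord t⁻¹)) := by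
        have h0 : v.val t⁻¹ ≠ 0 := by simpa using hs0
        rw [Place.ord, neg_neg, WithZero.exp_log h0]
      rw [hDs, Valuation.map_neg, map_pow, hsv, ← WithZero.exp_nsmul] at h1
      have h2 : v.val (D π) = WithZero.exp (-(v.ord t⁻¹) - 1) := by
        have h3 : WithZero.exp (v.ord t⁻¹ - 1) * (WithZero.exp (-(v.ord t⁻¹ - 1)) * v.val (D π)) =
            WithZero.exp (v.ord t⁻¹ - 1) * WithZero.exp (2 • (-(v.ord t⁻¹))) := by rw [← h1]
        rw [← mul_assoc, ← WithZero.exp_add, add_neg_cancel, WithZero.exp_zero, one_mul,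
          ← WithZero.exp_add] at h3
        rw [h3]
        congr 1
        simp only [nsmul_eq_mul]
        push_cast
        ring
      refine (val_D_le_pi v D hN _ (hB v) π hπ x hx).trans ?_
      rw [h2, WithZero.exp_le_exp]
      push_cast
      omega
  refine ⟨
    { pl := P0.pl
      ord_finite := P0.ord_finite
      sum_ord := P0.sum_ord
      D := P0.D
      D_add := P0.D_add
      D_mul := P0.D_mul
      e := e
      e_finite := P0.e_finite.subset (fun v hv h0 => hv (Nat.le_zero.1 (h0 ▸ (hmain v).2)))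
      ord_D := ?_
      ord_D' := ?_
      const := P0.const }, hP2, ?_, ?_, he0, he1⟩
  · intro v x hx hDx
    rw [hP1] at hDx ⊢
    rw [hP2]
    exact ord_D_ge_gen v D (e v) (hmain v).1 x hx hDx
  · intro v x hx hDx h0
    rw [hP1] at hDx ⊢
    rw [hP2] at h0 ⊢
    have := (hmain v).1 x ((v.ord_nonneg_iff hx).1 h0)
    rw [val_le_exp_iff v _ hDx] at this
    exact this
  · change P0.D t = 1
    rw [hP1, hD]
  · intro x hx
    change P0.D x = 0 at hx
    rw [hP1] at hx
    exact const_of_deriv_eq_zero hN D t hD x hx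

end Pool.Agent.Helper45.S4
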