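import Pool.Agent.Helper45.S4Res

/-!
# Galois action on places, decomposition groups
-/

set_option autoImplicit false
set_option linter.style.haveILetI false

namespace Pool.Agent.Helper45.S4

open Polynomial IntermediateField Pool.Agent.Helper16 Pool.Agent.Helper33 Pool.Agent.Helper45.FF

section act

variable {k M : Type} [Field k] [Field M] [Algebra k M]

/-- the action of automorphisms on places: `(act σ w) x = w (σ⁻¹ x)` -/
noncomputable def act (σ : M ≃ₐ[k] M) (w : Place k M) : Place k M where
  val := w.val.comap (σ.symm : M →+* M)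
  surj := fun y => by
    obtain ⟨x, hx⟩ := w.surj y
    refine ⟨σ x, ?_⟩
    rw [Valuation.comap_apply]
    change w.val (σ.symm (σ x)) = y
    rw [AlgEquiv.symm_apply_apply, hx]
  triv := fun a ha => by
    rw [Valuation.comap_apply]
    change w.val (σ.symm (algebraMap k M a)) = 1
    rw [AlgEquiv.commutes]
    exact w.triv a ha

theorem act_val (σ : M ≃ₐ[k] M) (w : Place k M) (x : M) : (act σ w).val x = w.val (σ.symm x) := rfl

theorem act_ord (σ : M ≃ₐ[k] M) (w : Place k M) (x : M) : (act σ w).ord x = w.ord (σ.symm x) := rfl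

theorem act_ord_apply (σ : M ≃ₐ[k] M) (w : Place k M) (x : M) : (act σ w).ord (σ x) = w.ord x := by
  rw [act_ord, AlgEquiv.symm_apply_apply]

theorem act_one (w : Place k M) : act (1 : M ≃ₐ[k] M) w = w := Place.ext_val (by ext x; rfl)

theorem act_mul (σ τ : M ≃ₐ[k] M) (w : Place k M) : act (σ * τ) w = act σ (act τ w) :=
  Place.ext_val (by ext x; rfl)

end act

section trans

variable {k E M : Type} [Field k] [Field E] [Field M] [Algebra k E] [Algebra k M] [Algebra E M]
  [IsScalarTower k E M]

theorem resPl_ram_unique (hE : IsFunctionField k E) [Algebra.IsAlgebraic E M] (w : Place k M)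
    (v : Place k E) (r : ℕ) (hr : 1 ≤ r)
    (h : ∀ x : E, w.ord (algebraMap E M x) = r * v.ord x) : resPl hE w = v ∧ ram hE w = r := by
  have h1 : ∀ x : E, (ram hE w : ℤ) * (resPl hE w).ord x = r * v.ord x := fun x => by
    rw [← ord_algebraMap hE w, h]
  have hrw := ram_pos hE w
  have h2 : resPl hE w = v := by
    apply place_ext
    intro x hx
    by_cases hx0 : x = 0
    · rw [hx0, map_zero]; exact zero_le
    · rw [← v.ord_nonneg_iff hx0]
      rw [← (resPl hE w).ord_nonneg_iff hx0] at hx
      have h3 := h1 x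
      by_contra hcon
      rw [not_le] at hcon
      have h4 : 0 ≤ (ram hE w : ℤ) * (resPl hE w).ord x := mul_nonneg (by positivity) hx
      have h5 : (r : ℤ) * v.ord x < 0 := mul_neg_of_pos_of_neg (by positivity) hcon
      omega
  refine ⟨h2, ?_⟩
  obtain ⟨π, -, hπ⟩ := exists_ord_eq_one v
  have h3 := h1 π
  rw [h2, hπ, mul_one, mul_one] at h3
  exact_mod_cast h3

theorem resPl_act (hE : IsFunctionField k E) [Algebra.IsAlgebraic E M] (σ : M ≃ₐ[E] M)
    (w : Place k M) : resPl hE (act (σ.restrictScalars k) w) = resPl hE w ∧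
      ram hE (act (σ.restrictScalars k) w) = ram hE w := by
  apply resPl_ram_unique hE _ _ _ (ram_pos hE w)
  intro x
  rw [← ord_algebraMap hE w, act_ord]
  congr 1
  exact σ.symm.commutes x

/-- There is a function with a pole at `w'` and units at finitely many other places. -/
theorem exists_pole_unit [IsAlgClosed k] (hM : IsFunctionField k M) (w' : Place k M)
    (U : Finset (Place k M)) : ∃ g : M, w'.ord g < 0 ∧ ∀ u ∈ U, u ≠ w' → u.ord g = 0 := by
  classical
  obtain ⟨f, hf, hfv⟩ := hM.exists_single_pole w'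
  have hf0 : f ≠ 0 := transcendental_ne_zero hf
  have hpole : 1 < w'.val f := by
    obtain ⟨S, hS, hsum, hpos⟩ := hM.zeros f⁻¹ (transcendental_inv hf)
    have hne : S.Nonempty := by
      rw [Finset.nonempty_iff_ne_empty]
      rintro rfl
      rw [Finset.sum_empty] at hsum
      have : (Module.finrank k⟮f⁻¹⟯ M : ℤ) ≠ 0 := by exact_mod_cast hpos.ne'
      exact this hsum.symm
    obtain ⟨u, hu⟩ := hne
    have h1 := (hS u).1 hu
    rw [map_inv₀] at h1
    have hf0' : u.val f ≠ 0 := by simpa using hf0
    have h2 := (inv_lt_one₀ (zero_lt_iff.2 hf0')).1 h1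
    by_cases huw : u = w'
    · rw [← huw]; exact h2
    · exact absurd (hfv u huw) (not_le.2 h2)
  have hres : ∀ u : Place k M, u ≠ w' → ∃ c : k, u.val (f - algebraMap k M c) < 1 :=
    fun u hu => exists_res_val hM u f (hfv u hu)
  let C : Finset k := U.image (fun u => if h : u ≠ w' then (hres u h).choose else 0)
  haveI : Infinite k := IsAlgClosed.instInfinite
  obtain ⟨c, hc⟩ := Infinite.exists_notMem_finset C
  have hfc0 : f - algebraMap k M c ≠ 0 := by
    intro h
    apply hf
    rw [sub_eq_zero.1 h]
    exact isAlgebraic_algebraMap c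
  refine ⟨f - algebraMap k M c, ?_, ?_⟩
  · rw [w'.ord_neg_iff hfc0]
    rw [Valuation.map_sub_eq_of_lt_left _ (lt_of_le_of_lt (w'.val_algebraMap_le c) hpole)]
    exact hpole
  · intro u hu huw
    have h1 := (hres u huw).choose_spec
    set cu := (hres u huw).choose with hcu
    have hmem : cu ∈ C := by
      refine Finset.mem_image.2 ⟨u, hu, ?_⟩
      rw [dif_pos huw]
    have hne : cu ≠ c := fun h => hc (h ▸ hmem)
    rw [u.ord_eq_zero_iff hfc0]
    have h2 : f - algebraMap k M c = (f - algebraMap k M cu) + algebraMap k M (cu - c) := by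
      rw [map_sub]; ring
    have h3 : u.val (algebraMap k M (cu - c)) = 1 := u.triv _ (sub_ne_zero.2 hne)
    rw [h2, Valuation.map_add_eq_of_lt_right _ (by rw [h3]; exact h1), h3]

theorem ord_prod (w : Place k M) {ι : Type} (s : Finset ι) (f : ι → M) (hf : ∀ i ∈ s, f i ≠ 0) :
    w.ord (∏ i ∈ s, f i) = ∑ i ∈ s, w.ord (f i) := by
  classical
  induction s using Finset.induction_on with
  | empty => simp [Place.ord_one]
  | insert a s ha ih =>
    rw [Finset.prod_insert ha, Finset.sum_insert ha, w.ord_mul (hf a (Finset.mem_insert_self a s))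
      (Finset.prod_ne_zero_iff.2 fun i hi => hf i (Finset.mem_insert_of_mem hi)),
      ih fun i hi => hf i (Finset.mem_insert_of_mem hi)]

/-- The Galois group acts transitively on the places above a given place. -/
theorem exists_act_eq [IsAlgClosed k] (hE : IsFunctionField k E) [FiniteDimensional E M]
    [IsGalois E M] (w w' : Place k M) (h : resPl hE w = resPl hE w') :
    ∃ σ : M ≃ₐ[E] M, act (σ.restrictScalars k) w = w' := by
  classical
  by_contra hcon
  push Not at hcon
  have hM : IsFunctionField k M := isFunctionField_ext hE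
  let U : Finset (Place k M) := (Finset.univ.image fun σ : M ≃ₐ[E] M => act (σ.restrictScalars k) w) ∪
    (Finset.univ.image fun σ : M ≃ₐ[E] M => act (σ.restrictScalars k) w')
  obtain ⟨g, hg, hgU⟩ := exists_pole_unit hM w' U
  have hg0 : g ≠ 0 := by
    rintro rfl
    rw [Place.ord_zero] at hg
    exact lt_irrefl _ hg
  have hN := Algebra.norm_eq_prod_automorphisms E g
  set y := Algebra.norm E g with hy
  have hord : ∀ u : Place k M, u.ord (algebraMap E M y) =
      ∑ σ : M ≃ₐ[E] M, (act ((σ⁻¹ : M ≃ₐ[E] M).restrictScalars k) u).ord g := by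
    intro u
    rw [hN, ord_prod u _ _ (fun σ _ => by simpa using hg0)]
    rfl
  have h1 : w.ord (algebraMap E M y) = 0 := by
    rw [hord]
    apply Finset.sum_eq_zero
    intro σ _
    exact hgU _ (Finset.mem_union_left _ (Finset.mem_image_of_mem _ (Finset.mem_univ _))) (hcon _)
  have h2 : w'.ord (algebraMap E M y) < 0 := by
    rw [hord]
    have h3 : ∀ σ : M ≃ₐ[E] M, (act ((σ⁻¹ : M ≃ₐ[E] M).restrictScalars k) w').ord g ≤ 0 := by
      intro σ
      by_cases h4 : act ((σ⁻¹ : M ≃ₐ[E] M).restrictScalars k) w' = w'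
      · rw [h4]; exact hg.le
      · rw [hgU _ (Finset.mem_union_right _ (Finset.mem_image_of_mem _ (Finset.mem_univ _))) h4]
    apply Finset.sum_neg' (fun σ _ => h3 σ)
    refine ⟨1, Finset.mem_univ _, ?_⟩
    have h5 : act ((1⁻¹ : M ≃ₐ[E] M).restrictScalars k) w' = w' := by
      rw [inv_one]; exact act_one w'
    rw [h5]; exact hg
  rw [ord_algebraMap hE] at h1 h2
  rw [h] at h1
  have hr := ram_pos hE w
  have h3 : (resPl hE w').ord y = 0 := by
    rcases mul_eq_zero.1 h1 with h4 | h4
    · omega
    · exact h4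
  rw [h3, mul_zero] at h2
  exact lt_irrefl _ h2

/-- The ramification index is the order of the decomposition group. -/
theorem card_stab [IsAlgClosed k] (hE : IsFunctionField k E) [FiniteDimensional E M]
    [IsGalois E M] (w : Place k M) :
    Nat.card {σ : M ≃ₐ[E] M // act (σ.restrictScalars k) w = w} = ram hE w := by
  classical
  letI : MulAction (M ≃ₐ[E] M) (Place k M) :=
    { smul := fun σ w => act (σ.restrictScalars k) w
      one_smul := fun w => act_one w
      mul_smul := fun σ τ w => act_mul (σ.restrictScalars k) (τ.restrictScalars k) w }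
  obtain ⟨T, hT, hsum⟩ := sum_ram (M := M) hE (resPl hE w)
  have horb : MulAction.orbit (M ≃ₐ[E] M) w = (T : Set (Place k M)) := by
    ext u
    rw [Finset.mem_coe, hT, MulAction.mem_orbit_iff]
    constructor
    · rintro ⟨σ, rfl⟩
      exact (resPl_act hE σ w).1
    · intro hu
      obtain ⟨σ, hσ⟩ := exists_act_eq hE w u hu.symm
      exact ⟨σ, hσ⟩
  have hconst : ∀ u ∈ T, ram hE u = ram hE w := by
    intro u hu
    obtain ⟨σ, hσ⟩ := exists_act_eq hE w u ((hT u).1 hu).symm
    rw [← hσ]
    exact (resPl_act hE σ w).2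
  rw [Finset.sum_congr rfl hconst, Finset.sum_const, smul_eq_mul] at hsum
  haveI : Fintype (MulAction.orbit (M ≃ₐ[E] M) w) := by
    rw [horb]; infer_instance
  have h1 := MulAction.card_orbit_mul_card_stabilizer_eq_card_group (M ≃ₐ[E] M) w
  have h2 : Fintype.card (MulAction.orbit (M ≃ₐ[E] M) w) = T.card := by
    rw [← Set.toFinset_card]
    congr 1
    ext u
    rw [Set.mem_toFinset, horb, Finset.mem_coe]
  have h3 : Fintype.card (M ≃ₐ[E] M) = Module.finrank E M := by
    rw [← Nat.card_eq_fintype_card]
    exact IsGalois.card_aut_eq_finrank E M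
  rw [h2, h3, ← hsum] at h1
  have h4 : 0 < T.card := Finset.card_pos.2 ⟨w, (hT w).2 rfl⟩
  have h5 := Nat.eq_of_mul_eq_mul_left h4 h1
  rw [← h5, ← Nat.card_eq_fintype_card]
  rfl

end trans

end Pool.Agent.Helper45.S4
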