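import Pool.Agent.Helper45.S4Der
import Pool.Agent.Helper16.FF10

/-!
# Restriction of places in a finite extension of function fields
-/

set_option autoImplicit false
set_option linter.style.haveILetI false

namespace Pool.Agent.Helper45.S4

open Polynomial IntermediateField Pool.Agent.Helper16 Pool.Agent.Helper33 Pool.Agent.Helper45.FF

variable {k L M : Type} [Field k] [Field L] [Field M] [Algebra k L] [Algebra k M] [Algebra L M]
  [IsScalarTower k L M]

omit [Algebra k L] [IsScalarTower k L M] in
theorem not_trivial_on [Algebra.IsAlgebraic L M] (w : Place k M) :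
    ∃ y : L, 1 < w.val (algebraMap L M y) := by
  by_contra hcon
  push Not at hcon
  -- then every element of `M` has value at most one
  obtain ⟨z, hz⟩ := w.surj (WithZero.exp (1 : ℤ))
  have hz1 : 1 < w.val z := by
    rw [hz, ← WithZero.exp_zero, WithZero.exp_lt_exp]; norm_num
  have hint : IsIntegral L z := (Algebra.IsAlgebraic.isAlgebraic z).isIntegral
  obtain ⟨p, hp, hpz⟩ := hint
  have hn : p.natDegree ≠ 0 := by
    intro h0
    rw [hp.natDegree_eq_zero.1 h0, eval₂_one] at hpz
    exact one_ne_zero hpz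
  have h1 : z ^ p.natDegree = - ∑ i ∈ Finset.range p.natDegree, algebraMap L M (p.coeff i) * z ^ i := by
    rw [eval₂_eq_sum_range, Finset.sum_range_succ, Monic.coeff_natDegree hp, map_one, one_mul] at hpz
    linear_combination hpz
  have h2 : w.val (z ^ p.natDegree) ≤ w.val (z ^ (p.natDegree - 1)) := by
    rw [h1, Valuation.map_neg]
    apply Valuation.map_sum_le
    intro i hi
    rw [Finset.mem_range] at hi
    rw [map_mul, map_pow, map_pow]
    calc w.val (algebraMap L M (p.coeff i)) * w.val z ^ i ≤ 1 * w.val z ^ i :=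
          mul_le_mul_left (hcon _) _
      _ = w.val z ^ i := one_mul _
      _ ≤ w.val z ^ (p.natDegree - 1) := pow_le_pow_right₀ hz1.le (by omega)
  rw [map_pow, map_pow] at h2
  have h3 : w.val z ^ (p.natDegree - 1) < w.val z ^ p.natDegree :=
    pow_lt_pow_right₀ hz1 (by omega)
  exact absurd h2 (not_le.2 h3)

theorem exists_resPl (hN : IsFunctionField k L) [Algebra.IsAlgebraic L M] (w : Place k M) :
    ∃ v : Place k L, ∃ r : ℕ, 1 ≤ r ∧ ∀ x : L, w.ord (algebraMap L M x) = r * v.ord x := by
  obtain ⟨y, hy⟩ := not_trivial_on (L := L) w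
  set O : ValuationSubring L := (w.val.comap (algebraMap L M)).valuationSubring with hO
  have hmem : ∀ x : L, x ∈ O ↔ w.val (algebraMap L M x) ≤ 1 := fun x => Iff.rfl
  obtain ⟨v, hv⟩ := hN.exists_place O (by
    intro a
    rw [hmem, ← IsScalarTower.algebraMap_apply]
    exact w.val_algebraMap_le a) y (by
    rw [hmem, not_le]; exact hy)
  have hv' : ∀ x : L, v.val x ≤ 1 ↔ w.val (algebraMap L M x) ≤ 1 := fun x => (hv x).trans (hmem x)
  have hunit : ∀ x : L, x ≠ 0 → v.ord x = 0 → w.ord (algebraMap L M x) = 0 := by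
    intro x hx h0
    have hx' : algebraMap L M x ≠ 0 := by simpa using hx
    rw [w.ord_eq_zero_iff hx']
    rw [v.ord_eq_zero_iff hx] at h0
    apply le_antisymm
    · rw [← hv']; exact h0.le
    · have h1 : w.val (algebraMap L M x⁻¹) ≤ 1 := by
        rw [← hv', map_inv₀, h0, inv_one]
      rw [map_inv₀, map_inv₀] at h1
      exact (inv_le_one₀ (zero_lt_iff.2 (by simpa using hx))).1 h1
  obtain ⟨π, hπ0, hπ⟩ := exists_ord_eq_one v
  have hπ0' : algebraMap L M π ≠ 0 := by simpa using hπ0
  have hr : 0 < w.ord (algebraMap L M π) := by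
    rw [w.ord_pos_iff hπ0']
    have h1 : v.val π < 1 := (v.ord_pos_iff hπ0).1 (by rw [hπ]; norm_num)
    refine lt_of_le_of_ne ((hv' π).1 h1.le) ?_
    intro h2
    have h3 : w.val (algebraMap L M π⁻¹) ≤ 1 := by
      rw [map_inv₀, map_inv₀, h2, inv_one]
    rw [← hv', map_inv₀] at h3
    exact absurd ((inv_le_one₀ (zero_lt_iff.2 (by simpa using hπ0))).1 h3) (not_le.2 h1)
  refine ⟨v, (w.ord (algebraMap L M π)).toNat, by omega, ?_⟩
  intro x
  by_cases hx : x = 0
  · subst hx; simp [Place.ord_zero]
  have hzp : ∀ n : ℤ, v.ord (π ^ n) = n := by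
    intro n
    rw [Place.ord, map_zpow₀, WithZero.log_zpow]
    have : WithZero.log (v.val π) = -1 := by
      have h := hπ
      rw [Place.ord] at h
      omega
    rw [this]
    simp
  have hzpw : ∀ n : ℤ, w.ord (algebraMap L M π ^ n) = n * w.ord (algebraMap L M π) := by
    intro n
    rw [Place.ord, map_zpow₀, WithZero.log_zpow, Place.ord]
    simp
  set n := v.ord x with hn
  have hπn : π ^ n ≠ 0 := zpow_ne_zero _ hπ0
  set u := x * (π ^ n)⁻¹ with hu
  have hu0 : u ≠ 0 := mul_ne_zero hx (inv_ne_zero hπn)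
  have hou : v.ord u = 0 := by
    rw [hu, v.ord_mul hx (inv_ne_zero hπn), v.ord_inv, hzp, ← hn]; ring
  have hxu : x = π ^ n * u := by rw [hu]; field_simp
  have h1 := hunit u hu0 hou
  conv_lhs => rw [hxu]
  have hπn' : algebraMap L M (π ^ n) ≠ 0 := fun h => hπn ((map_eq_zero _).1 h)
  rw [map_mul, w.ord_mul hπn' (by simpa using hu0), h1, add_zero, map_zpow₀, hzpw]
  have h2 : ((w.ord (algebraMap L M π)).toNat : ℤ) = w.ord (algebraMap L M π) :=
    Int.toNat_of_nonneg hr.le
  rw [h2]; ring

section defs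

variable (hN : IsFunctionField k L) [Algebra.IsAlgebraic L M]

/-- the restriction of a place of `M` to `L` -/
noncomputable def resPl (w : Place k M) : Place k L := (exists_resPl hN w).choose

/-- the ramification index of a place of `M` over `L` -/
noncomputable def ram (w : Place k M) : ℕ := (exists_resPl hN w).choose_spec.choose

theorem ram_pos (w : Place k M) : 1 ≤ ram hN w := (exists_resPl hN w).choose_spec.choose_spec.1

theorem ord_algebraMap (w : Place k M) (x : L) :
    w.ord (algebraMap L M x) = ram hN w * (resPl hN w).ord x :=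
  (exists_resPl hN w).choose_spec.choose_spec.2 x

theorem place_ext {v v' : Place k L} (h : ∀ x, v.val x ≤ 1 → v'.val x ≤ 1) : v = v' :=
  (Place.ext_val (valuation_eq_of_le v'.val v.val v'.surj v.surj h)).symm

end defs

theorem isFunctionField_ext (hN : IsFunctionField k L) [FiniteDimensional L M] :
    IsFunctionField k M := by
  haveI := hN.1
  refine ⟨Algebra.EssFiniteType.comp k L M, ?_⟩
  have h1 := trdeg_add_eq k L (A := M)
  rw [hN.2, trdeg_eq_zero (R := L) (A := M), add_zero] at h1
  exact h1.symm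

theorem exists_transcendental (hN : IsFunctionField k L) : ∃ t : L, Transcendental k t := by
  have h1 : Algebra.trdeg k L ≠ 0 := by rw [hN.2]; exact one_ne_zero
  rw [trdeg_ne_zero_iff] at h1
  exact h1.1

/-- the degree over `k(s)` in a tower -/
theorem finrank_tower (s : L) : Module.finrank k⟮algebraMap L M s⟯ M =
    Module.finrank k⟮s⟯ L * Module.finrank L M := by
  have h1 : (k⟮s⟯).map (IsScalarTower.toAlgHom k L M) = k⟮algebraMap L M s⟯ := by
    rw [IntermediateField.adjoin_map, Set.image_singleton]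
    rfl
  let i : k⟮s⟯ ≃ₐ[k] k⟮algebraMap L M s⟯ :=
    (IntermediateField.equivMap k⟮s⟯ (IsScalarTower.toAlgHom k L M)).trans
      (IntermediateField.equivOfEq h1)
  rw [Module.finrank_mul_finrank k⟮s⟯ L M]
  symm
  apply Algebra.finrank_eq_of_equiv_equiv i.toRingEquiv (RingEquiv.refl M)
  ext x
  rfl

theorem deg_eq_one' [IsAlgClosed k] (hN : IsFunctionField k L) (v : Place k L) : v.deg = 1 :=
  deg_eq_one hN v

/-- The places of `M` above a place of `L` and the degree formula. -/
theorem sum_ram [IsAlgClosed k] (hN : IsFunctionField k L) [FiniteDimensional L M] (v : Place k L) :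
    ∃ T : Finset (Place k M), (∀ w, w ∈ T ↔ resPl hN w = v) ∧
      ∑ w ∈ T, ram hN w = Module.finrank L M := by
  have hM : IsFunctionField k M := isFunctionField_ext hN
  obtain ⟨f, hf, hfv⟩ := hN.exists_single_pole v
  have hs : Transcendental k f⁻¹ := transcendental_inv hf
  set s := f⁻¹ with hs'
  have hs0 : s ≠ 0 := transcendental_ne_zero hs
  obtain ⟨S, hS, hsum, hpos⟩ := hN.zeros s hs
  have hSv : ∀ v', v'.val s < 1 → v' = v := by
    intro v' hv'
    by_contra hne
    have h1 := hfv v' hne
    rw [hs', map_inv₀] at hv'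
    have hf0 : v'.val f ≠ 0 := by simpa using transcendental_ne_zero hf
    have h2 := (inv_lt_one₀ (zero_lt_iff.2 hf0)).1 hv'
    exact absurd h1 (not_le.2 h2)
  have hSeq : S = {v} := by
    have hne : S.Nonempty := by
      rw [Finset.nonempty_iff_ne_empty]
      rintro rfl
      rw [Finset.sum_empty] at hsum
      have : (Module.finrank k⟮s⟯ L : ℤ) ≠ 0 := by exact_mod_cast hpos.ne'
      exact this hsum.symm
    apply Finset.eq_singleton_iff_nonempty_unique_mem.2 ⟨hne, ?_⟩
    intro v' hv'
    exact hSv v' ((hS v').1 hv')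
  rw [hSeq, Finset.sum_singleton, deg_eq_one hN, Nat.cast_one, mul_one] at hsum
  have hvs : v.val s < 1 := (hS v).1 (by rw [hSeq]; simp)
  have hsM : Transcendental k (algebraMap L M s) := by
    rwa [transcendental_algebraMap_iff (algebraMap L M).injective]
  obtain ⟨T, hT, hTsum, -⟩ := hM.zeros (algebraMap L M s) hsM
  have hT' : ∀ w, w ∈ T ↔ resPl hN w = v := by
    intro w
    rw [hT, ← w.ord_pos_iff (by simpa using hs0), ord_algebraMap hN w]
    have hr := ram_pos hN w
    constructor
    · intro h
      apply hSv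
      rw [← (resPl hN w).ord_pos_iff hs0]
      by_contra hcon
      rw [not_lt] at hcon
      have : (ram hN w : ℤ) * (resPl hN w).ord s ≤ 0 :=
        mul_nonpos_of_nonneg_of_nonpos (by positivity) hcon
      omega
    · intro h
      rw [h]
      have := (v.ord_pos_iff hs0).2 hvs
      positivity
  refine ⟨T, hT', ?_⟩
  rw [finrank_tower] at hTsum
  have h2 : ∑ w ∈ T, w.ord (algebraMap L M s) * (w.deg : ℤ) =
      (∑ w ∈ T, (ram hN w : ℤ)) * Module.finrank k⟮s⟯ L := by
    rw [Finset.sum_mul]
    apply Finset.sum_congr rfl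
    intro w hw
    rw [deg_eq_one hM, Nat.cast_one, mul_one, ord_algebraMap hN w, (hT' w).1 hw, hsum]
  rw [h2] at hTsum
  have h3 : (Module.finrank k⟮s⟯ L : ℤ) ≠ 0 := by exact_mod_cast hpos.ne'
  have h4 : (∑ w ∈ T, (ram hN w : ℤ)) = Module.finrank L M := by
    apply mul_right_cancel₀ h3
    rw [hTsum]
    push_cast
    ring
  exact_mod_cast h4

theorem exists_above [IsAlgClosed k] (hN : IsFunctionField k L) [FiniteDimensional L M]
    (v : Place k L) : ∃ w : Place k M, resPl hN w = v := by
  obtain ⟨T, hT, hsum⟩ := sum_ram (M := M) hN v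
  have hne : T.Nonempty := by
    rw [Finset.nonempty_iff_ne_empty]
    rintro rfl
    rw [Finset.sum_empty] at hsum
    exact Module.finrank_pos.ne hsum
  obtain ⟨w, hw⟩ := hne
  exact ⟨w, (hT w).1 hw⟩

end Pool.Agent.Helper45.S4
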